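import Mathlib

namespace Pool.Agent.H.MP_b5e7a1_al

open CategoryTheory Quiver

variable {V : Type} [Quiver.{0} V]

/-- Edges with target `v`. -/
abbrev In (v : V) : Type := Σ u : V, u ⟶ v

/-- Many-sorted Jonsson-Tarski type algebras of a graph. -/
structure Alg (V : Type) [Quiver.{0} V] where
  X : V → Type
  act : ∀ {u v : V}, (u ⟶ v) → X v → X u
  bij : ∀ v, Nonempty (In v) → Function.Bijective (fun (x : X v) (e : In v) => act e.2 x)

@[ext] structure AHom (A B : Alg V) where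
  f : ∀ v, A.X v → B.X v
  comm : ∀ {u v : V} (e : u ⟶ v) (x : A.X v), f u (A.act e x) = B.act e (f v x)

instance : Category (Alg V) where
  Hom := AHom
  id _ := ⟨fun _ x => x, fun _ _ => rfl⟩
  comp f g := ⟨fun v x => g.f v (f.f v x), fun e x => by rw [f.comm, g.comm]⟩

@[simp] lemma id_f (A : Alg V) (v : V) (x : A.X v) : AHom.f (𝟙 A) v x = x := rfl

@[simp] lemma comp_f {A B C : Alg V} (f : A ⟶ B) (g : B ⟶ C) (v : V) (x : A.X v) :
    AHom.f (f ≫ g) v x = AHom.f g v (AHom.f f v x) := rfl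

lemma hom_ext {A B : Alg V} {f g : A ⟶ B} (h : ∀ v x, AHom.f f v x = AHom.f g v x) : f = g :=
  AHom.ext (funext fun v => funext fun x => h v x)

/-- The action of paths. -/
def Alg.pa (A : Alg V) {u : V} : ∀ {v : V}, Path u v → A.X v → A.X u
  | _, .nil, x => x
  | _, .cons p e, x => A.pa p (A.act e x)

@[simp] lemma pa_nil (A : Alg V) {u : V} (x : A.X u) : A.pa Path.nil x = x := by
  rw [Alg.pa]

@[simp] lemma pa_cons (A : Alg V) {u v w : V} (p : Path u v) (e : v ⟶ w) (x : A.X w) :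
    A.pa (p.cons e) x = A.pa p (A.act e x) := by
  rw [Alg.pa]

lemma pa_comp (A : Alg V) {u v w : V} (p : Path u v) (q : Path v w) (x : A.X w) :
    A.pa (p.comp q) x = A.pa p (A.pa q x) := by
  induction q with
  | nil => simp
  | cons q e ih => simp [ih]

lemma pa_toPath (A : Alg V) {u v : V} (e : u ⟶ v) (x : A.X v) :
    A.pa e.toPath x = A.act e x := by
  simp [Quiver.Hom.toPath]

lemma hom_pa {A B : Alg V} (f : A ⟶ B) {u v : V} (p : Path u v) (x : A.X v) :
    AHom.f f u (A.pa p x) = B.pa p (AHom.f f v x) := by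
  induction p with
  | nil => simp
  | cons p e ih => simp [ih, AHom.comm]

/-- Splitting off a terminal segment of given length. -/
lemma split_path {u v : V} (p : Path u v) (n : ℕ) (hn : n ≤ p.length) :
    ∃ (w : V) (q : Path u w) (r : Path w v), r.length = n ∧ p = q.comp r := by
  induction p generalizing n with
  | nil => exact ⟨u, .nil, .nil, by simpa using hn.antisymm (Nat.zero_le _) |>.symm, rfl⟩
  | cons p e ih =>
    rcases n with _ | n
    · exact ⟨_, p.cons e, .nil, rfl, rfl⟩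
    · obtain ⟨w, q, r, hr, rfl⟩ := ih n (by simpa using hn)
      exact ⟨w, q, r.cons e, by simp [hr], rfl⟩

lemma suffix_path {u v : V} {b : V} (r' : Path b v) : ∀ {a : V} (r : Path a v) (q : Path u a)
    (q' : Path u b), q.comp r = q'.comp r' → r'.length ≤ r.length →
    ∃ s : Path a b, r = s.comp r' := by
  induction r' with
  | nil => intro a r _ _ _ _; exact ⟨r, rfl⟩
  | cons r' e' ih =>
    intro a r q q' h hl
    cases r with
    | nil => simp at hl
    | cons r e =>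
      simp only [Path.comp_cons, Path.cons.injEq] at h
      obtain ⟨rfl, h1, h2⟩ := h
      obtain rfl := eq_of_heq h2
      obtain ⟨s, rfl⟩ := ih r q q' (eq_of_heq h1) (by simpa using hl)
      exact ⟨s, rfl⟩

/-- Paths of length `n` ending at `v`. -/
def Pn (v : V) (n : ℕ) : Type := {p : Σ u : V, Path u v // p.2.length = n}

def consP {v : V} {n : ℕ} (a : Σ e : In v, Pn e.1 n) : Pn v (n + 1) :=
  ⟨⟨a.2.1.1, a.2.1.2.cons a.1.2⟩, by simp [a.2.2]⟩

lemma consP_bij (v : V) (n : ℕ) : Function.Bijective (consP (v := v) (n := n)) := by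
  constructor
  · rintro ⟨⟨w, e⟩, ⟨⟨u, p⟩, hp⟩⟩ ⟨⟨w', e'⟩, ⟨⟨u', p'⟩, hp'⟩⟩ h
    have h1 := congrArg Subtype.val h
    simp only [consP, Sigma.mk.injEq] at h1
    obtain ⟨rfl, h1⟩ := h1
    have h2 := eq_of_heq h1
    simp only [Path.cons.injEq] at h2
    obtain ⟨rfl, h3, h4⟩ := h2
    obtain rfl := eq_of_heq h3
    obtain rfl := eq_of_heq h4
    rfl
  · rintro ⟨⟨u, p⟩, hp⟩
    cases p with
    | nil => simp at hp
    | cons p e => exact ⟨⟨⟨_, e⟩, ⟨⟨u, p⟩, by simpa using hp⟩⟩, rfl⟩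

def nilP (v : V) : Pn v 0 := ⟨⟨v, .nil⟩, rfl⟩

lemma eq_nilP {v : V} (p : Pn v 0) : p = nilP v := by
  obtain ⟨⟨u, p⟩, hp⟩ := p
  cases p with
  | nil => rfl
  | cons p e => simp at hp

instance (v : V) : Unique (Pn v 0) := ⟨⟨nilP v⟩, eq_nilP⟩

/-- The graph is finite. -/
class Fin' (V : Type) [Quiver.{0} V] : Prop where
  fin : ∀ v : V, Finite (In v)

/-- The graph has no sources. -/
class NoSrc (V : Type) [Quiver.{0} V] : Prop where
  ne : ∀ v : V, Nonempty (In v)

instance [Fin' V] (v : V) : Finite (In v) := Fin'.fin v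

noncomputable instance [Fin' V] (v : V) : Fintype (In v) := Fintype.ofFinite _

instance [NoSrc V] (v : V) : Nonempty (In v) := NoSrc.ne v

instance finPn [Fin' V] (n : ℕ) : ∀ v : V, Finite (Pn v n) := by
  induction n with
  | zero => intro v; infer_instance
  | succ n ih => intro v; exact Finite.of_surjective _ (consP_bij v n).2

noncomputable instance [Fin' V] (v : V) (n : ℕ) : Fintype (Pn v n) := Fintype.ofFinite _

instance nePn [NoSrc V] (n : ℕ) : ∀ v : V, Nonempty (Pn v n) := by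
  induction n with
  | zero => intro v; infer_instance
  | succ n ih =>
    intro v
    obtain ⟨e⟩ := NoSrc.ne v
    obtain ⟨p⟩ := ih e.1
    exact ⟨consP ⟨e, p⟩⟩

lemma act_inj [NoSrc V] (A : Alg V) {v : V} {x y : A.X v}
    (h : ∀ e : In v, A.act e.2 x = A.act e.2 y) : x = y :=
  (A.bij v inferInstance).1 (funext h)

lemma act_surj [NoSrc V] (A : Alg V) {v : V} (z : ∀ e : In v, A.X e.1) :
    ∃ x : A.X v, ∀ e : In v, A.act e.2 x = z e := by
  obtain ⟨x, hx⟩ := (A.bij v inferInstance).2 z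
  exact ⟨x, fun e => congrFun hx e⟩

lemma pa_inj [NoSrc V] (A : Alg V) (n : ℕ) : ∀ {v : V} {x y : A.X v},
    (∀ (u : V) (p : Path u v), p.length = n → A.pa p x = A.pa p y) → x = y := by
  induction n with
  | zero => intro v x y h; simpa using h v .nil rfl
  | succ n ih =>
    intro v x y h
    refine act_inj A fun e => ih fun u p hp => ?_
    simpa using h u (p.cons e.2) (by simp [hp])

lemma pa_surj [NoSrc V] (A : Alg V) (n : ℕ) : ∀ {v : V} (z : ∀ p : Pn v n, A.X p.1.1),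
    ∃ x : A.X v, ∀ p : Pn v n, A.pa p.1.2 x = z p := by
  induction n with
  | zero =>
    intro v z
    refine ⟨z (nilP v), fun p => ?_⟩
    obtain rfl := eq_nilP p
    simp [nilP]
  | succ n ih =>
    intro v z
    choose y hy using fun e : In v => ih (v := e.1) (fun p => z (consP ⟨e, p⟩))
    obtain ⟨x, hx⟩ := act_surj A y
    refine ⟨x, fun p => ?_⟩
    obtain ⟨⟨e, p⟩, rfl⟩ := (consP_bij v n).2 p
    have := hy e p
    rw [← hx e] at this
    exact (pa_cons A _ _ _).trans this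

/-- Finitely additive measures. -/
def IsMeas [Fin' V] (A : Alg V) {M : Type} [AddCommMonoid M] (φ : ∀ v, A.X v → M) : Prop :=
  ∀ v x, φ v x = ∑ e : In v, φ e.1 (A.act e.2 x)

lemma IsMeas.sum_Pn [Fin' V] {A : Alg V} {M : Type} [AddCommMonoid M] {φ : ∀ v, A.X v → M}
    (h : IsMeas A φ) (n : ℕ) : ∀ (v : V) (x : A.X v),
    φ v x = ∑ p : Pn v n, φ p.1.1 (A.pa p.1.2 x) := by
  induction n with
  | zero => intro v x; rw [Fintype.sum_unique]; simp [default, nilP]
  | succ n ih =>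
    intro v x
    rw [← (Equiv.ofBijective _ (consP_bij v n)).sum_comp, Fintype.sum_sigma, h v x]
    refine Finset.sum_congr rfl fun e _ => ?_
    rw [ih]
    refine Finset.sum_congr rfl fun p _ => ?_
    simp [consP]

lemma IsMeas.comp [Fin' V] {A B : Alg V} {M : Type} [AddCommMonoid M] {φ : ∀ v, B.X v → M}
    (h : IsMeas B φ) (f : A ⟶ B) : IsMeas A (fun v x => φ v (AHom.f f v x)) := by
  intro v x
  simp only [AHom.comm]
  exact h v _

lemma IsMeas.map [Fin' V] {A : Alg V} {M N : Type} [AddCommMonoid M] [AddCommMonoid N]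
    {φ : ∀ v, A.X v → M} (h : IsMeas A φ) (θ : M →+ N) : IsMeas A (fun v x => θ (φ v x)) := by
  intro v x
  beta_reduce
  rw [h v x, map_sum]

/-- Subalgebras. -/
def sub (A : Alg V) (Q : ∀ v, A.X v → Prop)
    (h1 : ∀ {u v : V} (e : u ⟶ v) (x : A.X v), Q v x → Q u (A.act e x))
    (h2 : ∀ v (x : A.X v), Nonempty (In v) → (∀ e : In v, Q e.1 (A.act e.2 x)) → Q v x) :
    Alg V where
  X v := {x // Q v x}
  act e x := ⟨A.act e x.1, h1 e _ x.2⟩
  bij v hv := by
    constructor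
    · intro x y h
      exact Subtype.ext ((A.bij v hv).1 (funext fun e => congrArg Subtype.val (congrFun h e)))
    · intro z
      obtain ⟨x, hx⟩ := (A.bij v hv).2 (fun e => (z e).1)
      have hx' : ∀ e : In v, A.act e.2 x = (z e).1 := fun e => congrFun hx e
      exact ⟨⟨x, h2 v x hv fun e => by rw [hx']; exact (z e).2⟩,
        funext fun e => Subtype.ext (hx' e)⟩

def subι (A : Alg V) (Q : ∀ v, A.X v → Prop)
    (h1 : ∀ {u v : V} (e : u ⟶ v) (x : A.X v), Q v x → Q u (A.act e x))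
    (h2 : ∀ v (x : A.X v), Nonempty (In v) → (∀ e : In v, Q e.1 (A.act e.2 x)) → Q v x) :
    sub A Q h1 h2 ⟶ A := ⟨fun _ x => x.1, fun _ _ => rfl⟩

lemma sub_pa (A : Alg V) (Q : ∀ v, A.X v → Prop)
    (h1 : ∀ {u v : V} (e : u ⟶ v) (x : A.X v), Q v x → Q u (A.act e x))
    (h2 : ∀ v (x : A.X v), Nonempty (In v) → (∀ e : In v, Q e.1 (A.act e.2 x)) → Q v x)
    {u v : V} (p : Path u v) (x : (sub A Q h1 h2).X v) :
    Subtype.val ((sub A Q h1 h2).pa p x) = A.pa p x.1 :=
  hom_pa (subι A Q h1 h2) p x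

/-- Locally in `S`. -/
def Loc (A : Alg V) (S : ∀ v, A.X v → Prop) (v : V) (x : A.X v) : Prop :=
  ∃ L, ∀ (u : V) (p : Path u v), L ≤ p.length → S u (A.pa p x)

lemma Loc.act {A : Alg V} {S : ∀ v, A.X v → Prop} {u v : V} (e : u ⟶ v) (x : A.X v)
    (h : Loc A S v x) : Loc A S u (A.act e x) := by
  obtain ⟨L, hL⟩ := h
  exact ⟨L, fun w p hp => by simpa using hL w (p.cons e) (by simp; omega)⟩

lemma Loc.glue [Fin' V] {A : Alg V} {S : ∀ v, A.X v → Prop} (v : V) (x : A.X v)
    (h : ∀ e : In v, Loc A S e.1 (A.act e.2 x)) : Loc A S v x := by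
  choose L hL using h
  refine ⟨Finset.univ.sup L + 1, fun u p hp => ?_⟩
  cases p with
  | nil => simp at hp
  | cons p e =>
    have := hL ⟨_, e⟩ u p (le_trans (Finset.le_sup (f := L) (Finset.mem_univ _))
      (by simpa using hp))
    simpa using this

lemma closed_pa {A : Alg V} {S : ∀ v, A.X v → Prop}
    (hS : ∀ {u v : V} (e : u ⟶ v) (x : A.X v), S v x → S u (A.act e x))
    {u v : V} (p : Path u v) (x : A.X v) (h : S v x) : S u (A.pa p x) := by
  induction p with
  | nil => simpa using h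
  | cons p e ih => simpa using ih _ (hS e x h)

/-- Extension of homomorphisms from a locally generating subset. -/
lemma ext_hom [NoSrc V] {A : Alg V} {S : ∀ v, A.X v → Prop}
    (hS : ∀ {u v : V} (e : u ⟶ v) (x : A.X v), S v x → S u (A.act e x))
    (hloc : ∀ v x, Loc A S v x) (B : Alg V) (g : ∀ v x, S v x → B.X v)
    (hg : ∀ {u v : V} (e : u ⟶ v) (x : A.X v) (hx : S v x),
      g u (A.act e x) (hS e x hx) = B.act e (g v x hx)) :
    ∃ h : A ⟶ B, ∀ v x (hx : S v x), AHom.f h v x = g v x hx := by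
  have hgp : ∀ {u v : V} (p : Path u v) (x : A.X v) (hx : S v x) (hx' : S u (A.pa p x)),
      g u (A.pa p x) hx' = B.pa p (g v x hx) := by
    intro u v p
    induction p with
    | nil => intro x hx hx'; simp
    | cons p e ih =>
      intro x hx hx'
      simp only [pa_cons]
      rw [← hg e x hx, ← ih]
  let R : ∀ v, A.X v → B.X v → Prop := fun v y b =>
    ∃ L, ∀ (u : V) (p : Path u v), L ≤ p.length → ∃ hs : S u (A.pa p y), B.pa p b = g u _ hs
  have hex : ∀ v y, ∃ b, R v y b := by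
    intro v y
    obtain ⟨L, hL⟩ := hloc v y
    obtain ⟨b, hb⟩ := pa_surj B L (v := v) (fun p => g _ _ (hL _ p.1.2 p.2.ge))
    refine ⟨b, L, fun u p hp => ⟨hL u p hp, ?_⟩⟩
    obtain ⟨w, q, r, hr, rfl⟩ := split_path p L hp
    have := hb ⟨⟨w, r⟩, hr⟩
    simp only at this
    rw [pa_comp, this, ← hgp q _ _ (closed_pa hS q _ (hL w r hr.ge))]
    congr 1
    exact (pa_comp _ _ _ _).symm
  have huniq : ∀ v y b b', R v y b → R v y b' → b = b' := by
    rintro v y b b' ⟨L, hL⟩ ⟨L', hL'⟩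
    refine pa_inj B (max L L') fun u p hp => ?_
    obtain ⟨_, h1⟩ := hL u p (by omega)
    obtain ⟨_, h2⟩ := hL' u p (by omega)
    rw [h1, h2]
  choose F hF using hex
  refine ⟨⟨F, fun {u v} e x => huniq _ _ _ _ (hF _ _) ?_⟩, fun v x hx => huniq _ _ _ _ (hF _ _) ?_⟩
  · obtain ⟨L, hL⟩ := hF v x
    refine ⟨L, fun w p hp => ?_⟩
    obtain ⟨hs, h⟩ := hL w (p.cons e) (by simp; omega)
    exact ⟨by simpa using hs, by simpa using h⟩
  · exact ⟨0, fun u p _ => ⟨closed_pa hS p x hx, (hgp p x hx _).symm⟩⟩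

lemma hom_eq_of_loc [NoSrc V] {A B : Alg V} {S : ∀ v, A.X v → Prop}
    (hloc : ∀ v x, Loc A S v x) {f g : A ⟶ B}
    (h : ∀ v x, S v x → AHom.f f v x = AHom.f g v x) : f = g := by
  refine hom_ext fun v x => ?_
  obtain ⟨L, hL⟩ := hloc v x
  refine pa_inj B L fun u p hp => ?_
  rw [← hom_pa, ← hom_pa, h _ _ (hL u p hp.ge)]

lemma meas_eq_of_loc [Fin' V] {A : Alg V} {S : ∀ v, A.X v → Prop}
    (hloc : ∀ v x, Loc A S v x) {M : Type} [AddCommMonoid M] {φ ψ : ∀ v, A.X v → M}
    (hφ : IsMeas A φ) (hψ : IsMeas A ψ) (h : ∀ v x, S v x → φ v x = ψ v x) (v : V) (x : A.X v) :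
    φ v x = ψ v x := by
  obtain ⟨L, hL⟩ := hloc v x
  rw [hφ.sum_Pn L, hψ.sum_Pn L]
  exact Finset.sum_congr rfl fun p _ => h _ _ (hL _ _ p.2.ge)

lemma meas_pos_of_loc [Fin' V] [NoSrc V] {A : Alg V} {S : ∀ v, A.X v → Prop}
    (hloc : ∀ v x, Loc A S v x) {φ : ∀ v, A.X v → ℝ}
    (hφ : IsMeas A φ) (h : ∀ v x, S v x → 0 < φ v x) (v : V) (x : A.X v) : 0 < φ v x := by
  obtain ⟨L, hL⟩ := hloc v x
  rw [hφ.sum_Pn L]
  exact Finset.sum_pos (fun p _ => h _ _ (hL _ _ p.2.ge)) Finset.univ_nonempty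

/-- Gluing functions on paths. -/
def glueF {D : Type} {w : V} : ∀ {v : V}, Path w v → D → (∀ e : In v, Path w e.1 → D) → D
  | _, .nil, d, _ => d
  | _, .cons p e, _, z => z ⟨_, e⟩ p

/-- The algebra of measures on path spaces. -/
noncomputable def Ms (V : Type) [Quiver.{0} V] [Fin' V] (M : Type) [AddCommMonoid M] : Alg V where
  X u := {μ : ∀ w, Path w u → M // ∀ w p, μ w p = ∑ e : In w, μ e.1 (e.2.toPath.comp p)}
  act e μ := ⟨fun w p => μ.1 w (p.cons e), fun w p => μ.2 w (p.cons e)⟩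
  bij v _ := by
    constructor
    · intro μ ν h
      have h' : ∀ (e : In v) w (p : Path w e.1), μ.1 w (p.cons e.2) = ν.1 w (p.cons e.2) :=
        fun e w p => congrFun (congrFun (congrArg Subtype.val (congrFun h e)) w) p
      refine Subtype.ext (funext fun w => funext fun p => ?_)
      cases p with
      | nil =>
        rw [μ.2, ν.2]
        exact Finset.sum_congr rfl fun e _ => h' e _ .nil
      | cons p e => exact h' ⟨_, e⟩ _ p
    · intro z
      let μ : ∀ w, Path w v → M := fun w p =>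
        glueF p (∑ e : In v, (z e).1 e.1 .nil) (fun e => (z e).1 w)
      refine ⟨⟨μ, fun w p => ?_⟩, funext fun e => Subtype.ext rfl⟩
      cases p with
      | nil => rfl
      | cons p e => exact (z ⟨_, e⟩).2 w p

/-- Extension of measures from a locally generating subset. -/
lemma ext_meas [Fin' V] [NoSrc V] {A : Alg V} {S : ∀ v, A.X v → Prop}
    (hS : ∀ {u v : V} (e : u ⟶ v) (x : A.X v), S v x → S u (A.act e x))
    (hloc : ∀ v x, Loc A S v x) {M : Type} [AddCommMonoid M] (φ : ∀ v, A.X v → M)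
    (hφ : ∀ v x, S v x → φ v x = ∑ e : In v, φ e.1 (A.act e.2 x)) :
    ∃ ψ : ∀ v, A.X v → M, IsMeas A ψ ∧ ∀ v x, S v x → ψ v x = φ v x := by
  obtain ⟨h, hh⟩ := ext_hom hS hloc (Ms V M)
    (fun v x hx => ⟨fun w p => φ w (A.pa p x), fun w p => by
      beta_reduce
      rw [hφ _ _ (closed_pa hS p x hx)]
      simp only [pa_comp, pa_toPath]⟩)
    (fun e x hx => Subtype.ext (funext fun w => funext fun p => by
      change φ w _ = φ w _
      rw [pa_cons]))
  refine ⟨fun v x => (AHom.f h v x).1 v .nil, fun v x => ?_, fun v x hx => ?_⟩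
  · beta_reduce
    rw [(AHom.f h v x).2]
    refine Finset.sum_congr rfl fun e _ => ?_
    rw [AHom.comm]
    rfl
  · beta_reduce
    rw [hh v x hx]
    simp

end Pool.Agent.H.MP_b5e7a1_al
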