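import Pool.Agent.H.MP_b5e7a1_al.A

namespace Pool.Agent.H.MP_b5e7a1_al

open CategoryTheory Quiver

variable {V : Type} [Quiver.{0} V]

/-- Monomials in a family. -/
def Mon (A : Alg V) {J : Type} (s : J → V) (x : ∀ j, A.X (s j)) (u : V) (z : A.X u) : Prop :=
  ∃ m : Σ j, Path u (s j), z = A.pa m.2 (x m.1)

lemma Mon.act {A : Alg V} {J : Type} {s : J → V} {x : ∀ j, A.X (s j)} {u v : V} (e : u ⟶ v)
    (z : A.X v) (h : Mon A s x v z) : Mon A s x u (A.act e z) := by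
  obtain ⟨⟨j, p⟩, rfl⟩ := h
  exact ⟨⟨j, e.toPath.comp p⟩, by simp [pa_comp, pa_toPath]⟩

structure Basis (A : Alg V) {J : Type} (s : J → V) (x : ∀ j, A.X (s j)) : Prop where
  loc : ∀ v y, Loc A (Mon A s x) v y
  uniq : ∀ u (m m' : Σ j, Path u (s j)), A.pa m.2 (x m.1) = A.pa m'.2 (x m'.1) → m = m'

def IsFree (A : Alg V) {J : Type} (s : J → V) (x : ∀ j, A.X (s j)) : Prop :=
  ∀ B : Alg V, Function.Bijective (fun (h : A ⟶ B) j => AHom.f h (s j) (x j))

lemma Basis.isFree [NoSrc V] {A : Alg V} {J : Type} {s : J → V} {x : ∀ j, A.X (s j)}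
    (hb : Basis A s x) : IsFree A s x := by
  intro B
  constructor
  · intro f g h
    refine hom_eq_of_loc hb.loc ?_
    rintro v _ ⟨⟨j, p⟩, rfl⟩
    rw [hom_pa, hom_pa]
    exact congrArg _ (congrFun h j)
  · intro b
    have key : ∀ u (m : Σ j, Path u (s j)) (z : A.X u) (hz : Mon A s x u z),
        z = A.pa m.2 (x m.1) → B.pa hz.choose.2 (b hz.choose.1) = B.pa m.2 (b m.1) := by
      intro u m z hz h
      rw [hb.uniq u hz.choose m (hz.choose_spec.symm.trans h)]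
    obtain ⟨h, hh⟩ := ext_hom (S := Mon A s x) Mon.act hb.loc B
      (fun u z hz => B.pa hz.choose.2 (b hz.choose.1)) (by
        intro u v e z hz
        obtain ⟨⟨j, p⟩, rfl⟩ := id hz
        beta_reduce
        rw [key v ⟨j, p⟩ _ hz rfl, key u ⟨j, e.toPath.comp p⟩ _ _ (by simp [pa_comp, pa_toPath])]
        simp [pa_comp, pa_toPath])
    refine ⟨h, funext fun j => ?_⟩
    have hj : Mon A s x (s j) (x j) := ⟨⟨j, .nil⟩, by simp⟩
    beta_reduce
    rw [hh _ _ hj, key (s j) ⟨j, .nil⟩ _ hj (by simp)]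
    simp

lemma Basis.transport {A B : Alg V} {J : Type} {s : J → V} {x : ∀ j, A.X (s j)}
    (hb : Basis A s x) (f : A ⟶ B) (g : B ⟶ A) (hfg : f ≫ g = 𝟙 A) (hgf : g ≫ f = 𝟙 B) :
    Basis B s (fun j => AHom.f f (s j) (x j)) := by
  have h1 : ∀ v y, AHom.f g v (AHom.f f v y) = y := fun v y => by rw [← comp_f, hfg, id_f]
  have h2 : ∀ v y, AHom.f f v (AHom.f g v y) = y := fun v y => by rw [← comp_f, hgf, id_f]
  constructor
  · intro v y
    obtain ⟨L, hL⟩ := hb.loc v (AHom.f g v y)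
    refine ⟨L, fun u p hp => ?_⟩
    obtain ⟨m, hm⟩ := hL u p hp
    refine ⟨m, ?_⟩
    rw [← hom_pa, ← hm, hom_pa, h2]
  · intro u m m' h
    apply hb.uniq
    rw [← hom_pa, ← hom_pa] at h
    rw [← h1 _ (A.pa _ _), h, h1]

/-- Germs at infinity of functions on paths. -/
def gSet (D : Type) (u : V) : Setoid (∀ w, Path w u → D) where
  r φ ψ := ∃ L, ∀ w (p : Path w u), L ≤ p.length → φ w p = ψ w p
  iseqv := ⟨fun _ => ⟨0, fun _ _ _ => rfl⟩, fun ⟨L, h⟩ => ⟨L, fun w p hp => (h w p hp).symm⟩,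
    fun ⟨L, h⟩ ⟨L', h'⟩ => ⟨max L L', fun w p hp => (h w p (by omega)).trans (h' w p (by omega))⟩⟩

noncomputable def Gm (V : Type) [Quiver.{0} V] [Fin' V] (D : Type) [Inhabited D] : Alg V where
  X u := Quotient (gSet D u)
  act e := Quotient.map (fun φ w p => φ w (p.cons e)) (by
    rintro φ ψ ⟨L, h⟩
    exact ⟨L, fun w p hp => h w _ (by simp; omega)⟩)
  bij v _ := by
    constructor
    · intro φ ψ h
      induction φ using Quotient.inductionOn with
      | _ φ =>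
      induction ψ using Quotient.inductionOn with
      | _ ψ =>
      have h' := fun e : In v => Quotient.exact (congrFun h e)
      choose L hL using h'
      refine Quotient.sound ⟨Finset.univ.sup L + 1, fun w p hp => ?_⟩
      cases p with
      | nil => simp at hp
      | cons p e =>
        exact hL ⟨_, e⟩ w p (le_trans (Finset.le_sup (f := L) (Finset.mem_univ _))
          (by simpa using hp))
    · intro z
      choose y hy using fun e : In v => Quotient.exists_rep (z e)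
      refine ⟨Quotient.mk _ (fun w p => glueF p default (fun e => y e w)), funext fun e => ?_⟩
      rw [← hy e]
      rfl

lemma Gm_pa [Fin' V] {D : Type} [Inhabited D] {u v : V} (p : Path u v) (φ : ∀ w, Path w v → D) :
    (Gm V D).pa p (Quotient.mk (gSet D v) φ) = Quotient.mk (gSet D u) (fun w q => φ w (q.comp p)) := by
  induction p with
  | nil => simp
  | cons p e ih => rw [pa_cons]; exact ih _

lemma Gm_exact [Fin' V] [NoSrc V] {D : Type} {u : V} {φ ψ : ∀ w, Path w u → D}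
    (h : Quotient.mk (gSet D u) φ = Quotient.mk (gSet D u) ψ) :
    ∃ (w : V) (q : Path w u), φ w q = ψ w q := by
  obtain ⟨L, hL⟩ := Quotient.exact h
  obtain ⟨q⟩ : Nonempty (Pn u L) := inferInstance
  exact ⟨_, q.1.2, hL _ _ q.2.ge⟩

/-- The subalgebra locally generated by a subset. -/
def gen [Fin' V] (A : Alg V) (S : ∀ v, A.X v → Prop) : Alg V :=
  sub A (Loc A S) Loc.act (fun v x _ h => Loc.glue v x h)

lemma gen_pa [Fin' V] (A : Alg V) (S : ∀ v, A.X v → Prop) {u v : V} (p : Path u v)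
    (x : (gen A S).X v) : Subtype.val ((gen A S).pa p x) = A.pa p x.1 :=
  sub_pa _ _ _ _ p x

lemma exists_free [Fin' V] [NoSrc V] {J : Type} (s : J → V) :
    ∃ (A : Alg V) (x : ∀ j, A.X (s j)), Basis A s x := by
  let D := Option (Σ j, Σ w, Path w (s j))
  let y : ∀ j, (Gm V D).X (s j) := fun j => Quotient.mk (gSet D _) (fun w q => some ⟨j, w, q⟩)
  let x : ∀ j, (gen (Gm V D) (Mon (Gm V D) s y)).X (s j) := fun j =>
    ⟨y j, 0, fun u p _ => ⟨⟨j, p⟩, rfl⟩⟩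
  refine ⟨_, x, fun v z => ?_, ?_⟩
  · obtain ⟨L, hL⟩ := z.2
    refine ⟨L, fun u p hp => ?_⟩
    obtain ⟨m, hm⟩ := hL u p hp
    exact ⟨m, Subtype.ext (by rw [gen_pa, gen_pa, hm])⟩
  · rintro u ⟨j, p⟩ ⟨j', p'⟩ h
    have h1 := congrArg Subtype.val h
    rw [gen_pa, gen_pa] at h1
    simp only [x, y, Gm_pa] at h1
    obtain ⟨w, q, h2⟩ := Gm_exact h1
    simp only [D, Option.some.injEq, Sigma.mk.injEq] at h2
    obtain ⟨rfl, h2⟩ := h2
    have h3 := eq_of_heq h2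
    simp only [Sigma.mk.injEq, heq_eq_eq, true_and, Path.comp_inj_right] at h3
    rw [h3]

lemma IsFree.basis [Fin' V] [NoSrc V] {A : Alg V} {J : Type} {s : J → V} {x : ∀ j, A.X (s j)}
    (h : IsFree A s x) : Basis A s x := by
  obtain ⟨F, y, hy⟩ := exists_free s
  obtain ⟨f, hf⟩ := (hy.isFree A).2 x
  obtain ⟨g, hg⟩ := (h F).2 y
  have hf' : ∀ j, AHom.f f (s j) (y j) = x j := congrFun hf
  have hg' : ∀ j, AHom.f g (s j) (x j) = y j := congrFun hg
  have := hy.transport f g ((hy.isFree F).1 (funext fun j => by simp [hf', hg']))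
    ((h A).1 (funext fun j => by simp [hf', hg']))
  simpa only [hf'] using this

lemma IsFree.refine [NoSrc V] {A : Alg V} {J : Type} {s : J → V} {x : ∀ j, A.X (s j)}
    (h : IsFree A s x) (d : J → ℕ) :
    IsFree A (fun m : Σ j, Pn (s j) (d j) => m.2.1.1) (fun m => A.pa m.2.1.2 (x m.1)) := by
  intro B
  constructor
  · intro f g hfg
    refine (h B).1 (funext fun j => pa_inj B (d j) fun u p hp => ?_)
    rw [← hom_pa, ← hom_pa]
    exact congrFun hfg ⟨j, ⟨⟨u, p⟩, hp⟩⟩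
  · intro b
    choose c hc using fun j => pa_surj B (d j) (v := s j) (fun p => b ⟨j, p⟩)
    obtain ⟨f, hf⟩ := (h B).2 c
    refine ⟨f, funext fun m => ?_⟩
    have := congrFun hf m.1
    beta_reduce at this ⊢
    rw [hom_pa, this, hc]

lemma Basis.refine [Fin' V] [NoSrc V] {A : Alg V} {J : Type} {s : J → V} {x : ∀ j, A.X (s j)}
    (h : Basis A s x) (d : J → ℕ) :
    Basis A (fun m : Σ j, Pn (s j) (d j) => m.2.1.1) (fun m => A.pa m.2.1.2 (x m.1)) :=
  (h.isFree.refine d).basis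

lemma Basis.inj {A : Alg V} {J : Type} {s : J → V} {x : ∀ j, A.X (s j)} (h : Basis A s x) :
    Function.Injective (fun j => (⟨s j, x j⟩ : Σ u, A.X u)) := by
  have key : ∀ j (a : Σ u, A.X u), a = ⟨s j, x j⟩ → ∃ p : Path a.1 (s j), a.2 = A.pa p (x j) := by
    rintro j _ rfl
    exact ⟨.nil, by simp⟩
  intro j j' hj
  obtain ⟨p, hp⟩ := key j' _ hj
  exact congrArg Sigma.fst (h.uniq (s j) ⟨j, .nil⟩ ⟨j', p⟩ (by simpa using hp))

lemma sum_eq_of_range {α I I' M : Type} [Fintype I] [Fintype I'] [AddCommMonoid M] (a : I → α)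
    (a' : I' → α) (h : Function.Injective a) (h' : Function.Injective a')
    (h1 : ∀ i, ∃ i', a' i' = a i) (h2 : ∀ i', ∃ i, a i = a' i') (F : α → M) :
    ∑ i, F (a i) = ∑ i', F (a' i') := by
  choose f hf using h1
  refine Fintype.sum_bijective f ⟨fun i j hij => h ?_, fun i' => ?_⟩ _ _ fun i => by rw [hf]
  · rw [← hf, hij, hf]
  · obtain ⟨i, hi⟩ := h2 i'
    exact ⟨i, h' (by rw [hf, hi])⟩

lemma sum_refine [Fin' V] {A : Alg V} {J : Type} [Fintype J] {s : J → V} (x : ∀ j, A.X (s j))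
    (d : J → ℕ) {M : Type} [AddCommMonoid M] {φ : ∀ v, A.X v → M} (hφ : IsMeas A φ) :
    ∑ m : Σ j, Pn (s j) (d j), φ m.2.1.1 (A.pa m.2.1.2 (x m.1)) = ∑ j, φ (s j) (x j) := by
  rw [Fintype.sum_sigma]
  exact Finset.sum_congr rfl fun j _ => (hφ.sum_Pn (d j) (s j) (x j)).symm

lemma sum_eq_of_mon [Fin' V] [NoSrc V] {A : Alg V} {J K : Type} [Fintype J] [Fintype K]
    {s : J → V} {x : ∀ j, A.X (s j)} {s' : K → V} {x' : ∀ k, A.X (s' k)}
    (hx : Basis A s x) (hx' : Basis A s' x') (hm : ∀ j, Mon A s' x' (s j) (x j))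
    {M : Type} [AddCommMonoid M] {φ : ∀ v, A.X v → M} (hφ : IsMeas A φ) :
    ∑ j, φ (s j) (x j) = ∑ k, φ (s' k) (x' k) := by
  choose m hm using hm
  let L := Finset.univ.sup fun j => (m j).2.length
  have hL : ∀ j, (m j).2.length ≤ L := fun j =>
    Finset.le_sup (f := fun j => (m j).2.length) (Finset.mem_univ j)
  rw [← sum_refine x (fun j => L - (m j).2.length) hφ, ← sum_refine x' (fun _ => L) hφ]
  refine sum_eq_of_range _ _ (hx.refine (fun j => L - (m j).2.length)).inj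
    (hx'.refine (fun _ => L)).inj ?_ ?_ (fun a => φ a.1 a.2)
  · rintro ⟨j, ⟨⟨u, p⟩, hp⟩⟩
    refine ⟨⟨(m j).1, ⟨⟨u, p.comp (m j).2⟩, ?_⟩⟩, ?_⟩
    · have := hL j
      simp only [Path.length_comp] at hp ⊢
      omega
    · simp only [pa_comp, ← hm]
  · rintro ⟨k, ⟨⟨u, ρ⟩, hρ⟩⟩
    obtain ⟨N, hN⟩ := hx.loc u (A.pa ρ (x' k))
    obtain ⟨q⟩ : Nonempty (Pn u N) := inferInstance
    obtain ⟨⟨j, θ⟩, h⟩ := hN _ q.1.2 q.2.ge
    have h1 := hx'.uniq _ ⟨k, q.1.2.comp ρ⟩ ⟨(m j).1, θ.comp (m j).2⟩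
      (by simp only [pa_comp, ← hm]; exact h)
    simp only [Sigma.mk.injEq] at h1
    obtain ⟨rfl, h1⟩ := h1
    simp only at hρ
    obtain ⟨σ, rfl⟩ := suffix_path (m j).2 ρ _ _ (eq_of_heq h1) (by rw [hρ]; exact hL j)
    refine ⟨⟨j, ⟨⟨u, σ⟩, ?_⟩⟩, ?_⟩
    · simp only [Path.length_comp] at hρ ⊢
      omega
    · simp only [pa_comp, ← hm]

lemma unif_loc {A : Alg V} {J : Type} [Fintype J] {s : J → V} (x : ∀ j, A.X (s j))
    {S : J → ∀ v, A.X v → Prop} (h : ∀ j, Loc A (S j) _ (x j)) :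
    ∃ L, ∀ j u (p : Path u (s j)), L ≤ p.length → S j u (A.pa p (x j)) := by
  choose L hL using h
  exact ⟨Finset.univ.sup L, fun j u p hp =>
    hL j u p (le_trans (Finset.le_sup (f := L) (Finset.mem_univ j)) hp)⟩

/-- The total mass does not depend on the basis. -/
lemma sum_eq_of_basis [Fin' V] [NoSrc V] {A : Alg V} {J K : Type} [Fintype J] [Fintype K]
    {s : J → V} {x : ∀ j, A.X (s j)} {s' : K → V} {x' : ∀ k, A.X (s' k)}
    (hx : Basis A s x) (hx' : Basis A s' x')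
    {M : Type} [AddCommMonoid M] {φ : ∀ v, A.X v → M} (hφ : IsMeas A φ) :
    ∑ j, φ (s j) (x j) = ∑ k, φ (s' k) (x' k) := by
  obtain ⟨L, hL⟩ := unif_loc x (S := fun _ => Mon A s' x') fun j => hx'.loc _ _
  rw [← sum_refine x (fun _ => L) hφ]
  exact sum_eq_of_mon (hx.refine fun _ => L) hx' (fun m => hL _ _ _ m.2.2.ge) hφ

/-- Retracts of finitely generated free algebras are finitely generated free. -/
lemma retract_basis [Fin' V] [NoSrc V] {A P : Alg V} {J : Type} [Fintype J] {s : J → V}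
    {x : ∀ j, A.X (s j)} (hx : Basis A s x) (r : A ⟶ P) (i : P ⟶ A) (hir : i ≫ r = 𝟙 P) :
    ∃ (K : Type) (_ : Fintype K) (s' : K → V) (z : ∀ k, P.X (s' k)), Basis P s' z := by
  classical
  have h1 : ∀ v y, AHom.f r v (AHom.f i v y) = y := fun v y => by rw [← comp_f, hir, id_f]
  obtain ⟨L, hL⟩ := unif_loc (fun j => AHom.f i _ (AHom.f r _ (x j))) (S := fun _ => Mon A s x)
    fun j => hx.loc _ _
  have hb := hx.refine fun _ => L
  refine ⟨{m : Σ j, Pn (s j) L // AHom.f i _ (AHom.f r _ (A.pa m.2.1.2 (x m.1))) =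
    A.pa m.2.1.2 (x m.1)}, inferInstance, fun k => k.1.2.1.1,
    fun k => AHom.f r _ (A.pa k.1.2.1.2 (x k.1.1)), fun v y => ?_, ?_⟩
  · obtain ⟨N, hN⟩ := hb.loc v (AHom.f i v y)
    refine ⟨N, fun u p hp => ?_⟩
    obtain ⟨⟨⟨j, κ⟩, θ⟩, h⟩ := hN u p hp
    simp only at θ h
    obtain ⟨⟨l, ρ⟩, hρ⟩ := hL j _ κ.1.2 κ.2.ge
    simp only at ρ hρ
    have h2 : AHom.f i _ (AHom.f r _ (A.pa θ (A.pa κ.1.2 (x j)))) = A.pa θ (A.pa κ.1.2 (x j)) := by
      rw [← h, ← hom_pa i p y, h1]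
    have h3 := hx.uniq u ⟨l, θ.comp ρ⟩ ⟨j, θ.comp κ.1.2⟩ (by
      simp only [pa_comp]
      rw [← hρ, ← h2]
      simp only [hom_pa])
    simp only [Sigma.mk.injEq] at h3
    obtain ⟨rfl, h3⟩ := h3
    have h4 : ρ = κ.1.2 := Path.comp_inj_right.1 (eq_of_heq h3)
    refine ⟨⟨⟨⟨l, κ⟩, ?_⟩, θ⟩, ?_⟩
    · simp only [hom_pa]
      rw [hρ, h4]
    · simp only
      rw [← hom_pa r θ, ← h, ← hom_pa i p y, h1]
  · rintro u ⟨⟨m, hm⟩, p⟩ ⟨⟨m', hm'⟩, p'⟩ h
    have h2 := congrArg (AHom.f i u) h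
    simp only at p p' h2
    rw [hom_pa i, hom_pa i, hm, hm'] at h2
    have h3 := hb.uniq u ⟨m, p⟩ ⟨m', p'⟩ h2
    simp only [Sigma.mk.injEq] at h3
    obtain ⟨rfl, h3⟩ := h3
    obtain rfl := eq_of_heq h3
    rfl

/-- Integer torsors. -/
structure Tors (A : Alg V) (τ : ℤ → (A ⟶ A)) : Prop where
  zero : τ 0 = 𝟙 A
  add : ∀ a b, τ (a + b) = τ a ≫ τ b
  ne : ∀ v, Nonempty (A.X v)
  loc : ∀ v (g g' : A.X v), ∃ L, ∀ u (p : Path u v), L ≤ p.length →
    ∃ n, A.pa p g' = AHom.f (τ n) u (A.pa p g)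
  free : ∀ v g n, AHom.f (τ n) v g = g → n = 0

lemma exists_tors (V : Type) [Quiver.{0} V] [Fin' V] [NoSrc V] :
    ∃ (T : Alg V) (τ : ℤ → (T ⟶ T)) (h : ∀ v, T.X v), Tors T τ ∧
      ∀ {u v : V} (e : u ⟶ v), T.act e (h v) = AHom.f (τ 1) u (h u) := by
  let c : ℤ → ∀ u, (Gm V ℤ).X u := fun n u =>
    Quotient.mk (gSet ℤ u) (fun _ q => (q.length : ℤ) + n)
  let σ : ℤ → (Gm V ℤ ⟶ Gm V ℤ) := fun n =>
    ⟨fun u => Quotient.map (fun φ w p => φ w p + n) (by
      rintro φ ψ ⟨L, h⟩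
      exact ⟨L, fun w p hp => by beta_reduce; rw [h w p hp]⟩), by
      intro u v e x
      induction x using Quotient.inductionOn with
      | _ x => rfl⟩
  have hσ : ∀ (n : ℤ) (u : V) (φ : ∀ w, Quiver.Path w u → ℤ), AHom.f (σ n) u (Quotient.mk (gSet ℤ u) φ) =
      Quotient.mk (gSet ℤ u) (fun w p => φ w p + n) := fun _ _ _ => rfl
  have hσc : ∀ n m u, AHom.f (σ n) u (c m u) = c (m + n) u := fun n m u => by
    simp only [c, hσ, add_assoc]
  have hc : ∀ n {u v : V} (p : Path u v), (Gm V ℤ).pa p (c n v) = c (p.length + n) u := by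
    intro n u v p
    simp only [c, Gm_pa, Path.length_comp, Nat.cast_add, add_assoc]
  let S : ∀ u, (Gm V ℤ).X u → Prop := fun u z => ∃ n, z = c n u
  let τ : ℤ → (gen (Gm V ℤ) S ⟶ gen (Gm V ℤ) S) := fun n =>
    ⟨fun u z => ⟨AHom.f (σ n) u z.1, by
      obtain ⟨L, hL⟩ := z.2
      refine ⟨L, fun w p hp => ?_⟩
      obtain ⟨m, hm⟩ := hL w p hp
      exact ⟨m + n, by rw [← hom_pa, hm, hσc]⟩⟩, fun e z => Subtype.ext (AHom.comm (σ n) e z.1)⟩
  have hτ : ∀ n u (z : (gen (Gm V ℤ) S).X u), (AHom.f (τ n) u z).1 = AHom.f (σ n) u z.1 :=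
    fun _ _ _ => rfl
  let h : ∀ v, (gen (Gm V ℤ) S).X v := fun v => ⟨c 0 v, 0, fun u p _ => ⟨_, hc 0 p⟩⟩
  refine ⟨_, τ, h, ⟨?_, ?_, fun v => ⟨h v⟩, ?_, ?_⟩, ?_⟩
  · refine hom_ext fun v ⟨z, hz⟩ => Subtype.ext ?_
    induction z using Quotient.inductionOn with
    | _ z => rw [hτ]; simp [hσ]
  · intro a b
    refine hom_ext fun v ⟨z, hz⟩ => Subtype.ext ?_
    induction z using Quotient.inductionOn with
    | _ z => rw [comp_f, hτ, hτ, hτ]; simp [hσ, add_assoc]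
  · intro v g g'
    obtain ⟨L, hL⟩ := g.2
    obtain ⟨L', hL'⟩ := g'.2
    refine ⟨max L L', fun u p hp => ?_⟩
    obtain ⟨n, hn⟩ := hL u p (by omega)
    obtain ⟨n', hn'⟩ := hL' u p (by omega)
    refine ⟨n' - n, Subtype.ext ?_⟩
    rw [hτ, gen_pa, gen_pa, hn, hn', hσc]
    congr 1
    ring
  · rintro v ⟨z, hz⟩ n h
    have h1 := congrArg Subtype.val h
    induction z using Quotient.inductionOn with
    | _ z =>
      rw [hτ] at h1
      simp only [hσ] at h1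
      obtain ⟨w, q, h2⟩ := Gm_exact h1
      simpa using h2
  · intro u v e
    refine Subtype.ext ?_
    rw [hτ]
    change (Gm V ℤ).act e (c 0 v) = AHom.f (σ 1) u (c 0 u)
    rw [← pa_toPath, hc, hσc]
    simp

end Pool.Agent.H.MP_b5e7a1_al
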