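import Pool.Agent.H.MP_b5e7a1_al.B

namespace Pool.Agent.H.MP_b5e7a1_al

open CategoryTheory Quiver

universe v₁ u₁

variable {V W : Type} [Quiver.{0} V] [Quiver.{0} W] {𝒜 : Type u₁} [Category.{v₁} 𝒜]

/-- Coproduct cocones. -/
def IsCop {J : Type} {U : J → 𝒜} {X : 𝒜} (f : ∀ j, U j ⟶ X) : Prop :=
  ∀ Z : 𝒜, Function.Bijective (fun (h : X ⟶ Z) j => f j ≫ h)

lemma IsCop.sigma {J : Type} {U : J → 𝒜} {X : 𝒜} {f : ∀ j, U j ⟶ X} (hf : IsCop f)
    {K : J → Type} {U' : ∀ j, K j → 𝒜} {g : ∀ j k, U' j k ⟶ U j} (hg : ∀ j, IsCop (g j)) :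
    IsCop (fun m : Σ j, K j => g m.1 m.2 ≫ f m.1) := by
  intro Z
  constructor
  · intro a b h
    refine (hf Z).1 (funext fun j => (hg j Z).1 (funext fun k => ?_))
    simpa using congrFun h ⟨j, k⟩
  · intro b
    choose c hc using fun j => (hg j Z).2 (fun k => b ⟨j, k⟩)
    obtain ⟨a, ha⟩ := (hf Z).2 c
    refine ⟨a, funext fun m => ?_⟩
    have h1 := congrFun ha m.1
    have h2 := congrFun (hc m.1) m.2
    beta_reduce at h1 h2 ⊢
    rw [Category.assoc, h1, h2]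

lemma isCop_id (X : 𝒜) : IsCop (fun _ : Unit => 𝟙 X) := by
  intro Z
  exact ⟨fun a b h => by simpa using congrFun h (), fun b => ⟨b (), funext fun _ => by simp⟩⟩

/-- A presentation of a category as algebras of a graph. -/
structure Sys (𝒜 : Type u₁) [Category.{v₁} 𝒜] (V : Type) [Quiver.{0} V] where
  Γ : 𝒜 ⥤ Alg V
  full : Γ.Full
  faithful : Γ.Faithful
  ess : Γ.EssSurj
  P : V → 𝒜
  y : ∀ v, (Γ.obj (P v)).X v
  hy : ∀ v, IsFree (Γ.obj (P v)) (fun _ : Unit => v) (fun _ => y v)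

attribute [instance] Sys.full Sys.faithful Sys.ess

lemma exists_obj_free [Fin' V] [NoSrc V] (Γ : 𝒜 ⥤ Alg V) [Γ.EssSurj] {J : Type} (s : J → V) :
    ∃ (F : 𝒜) (x : ∀ j, (Γ.obj F).X (s j)), IsFree (Γ.obj F) s x := by
  obtain ⟨A, x, hx⟩ := exists_free s
  let i := Γ.objObjPreimageIso A
  exact ⟨_, _, (hx.transport i.inv i.hom i.inv_hom_id i.hom_inv_id).isFree⟩

lemma exists_sys [Fin' V] [NoSrc V] (Γ : 𝒜 ⥤ Alg V) [Γ.Full] [Γ.Faithful] [Γ.EssSurj] :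
    ∃ S : Sys 𝒜 V, S.Γ = Γ := by
  choose P y hy using fun v : V => exists_obj_free Γ (fun _ : Unit => v)
  exact ⟨⟨Γ, inferInstance, inferInstance, inferInstance, P, fun v => y v (), hy⟩, rfl⟩

namespace Sys

variable (S : Sys 𝒜 V)

def ev {v : V} {X : 𝒜} (a : S.P v ⟶ X) : (S.Γ.obj X).X v := AHom.f (S.Γ.map a) v (S.y v)

lemma ev_comp {v : V} {X Y : 𝒜} (a : S.P v ⟶ X) (h : X ⟶ Y) :
    S.ev (a ≫ h) = AHom.f (S.Γ.map h) v (S.ev a) := by
  simp [ev]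

@[simp] lemma ev_id (v : V) : S.ev (𝟙 (S.P v)) = S.y v := by simp [ev]

lemma ev_inj {v : V} {X : 𝒜} {a b : S.P v ⟶ X} (h : S.ev a = S.ev b) : a = b :=
  S.Γ.map_injective ((S.hy v _).1 (funext fun _ => h))

lemma ev_surj {v : V} {X : 𝒜} (x : (S.Γ.obj X).X v) : ∃ a : S.P v ⟶ X, S.ev a = x := by
  obtain ⟨f, hf⟩ := (S.hy v _).2 (fun _ => x)
  obtain ⟨a, rfl⟩ := S.Γ.map_surjective f
  exact ⟨a, congrFun hf ()⟩

lemma isCop_iff {J : Type} {s : J → V} {X : 𝒜} (f : ∀ j, S.P (s j) ⟶ X) :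
    IsCop f ↔ IsFree (S.Γ.obj X) s (fun j => S.ev (f j)) := by
  constructor
  · intro h B
    let i := S.Γ.objObjPreimageIso B
    constructor
    · intro a b hab
      obtain ⟨a', ha⟩ := S.Γ.map_surjective (a ≫ i.inv)
      obtain ⟨b', hb⟩ := S.Γ.map_surjective (b ≫ i.inv)
      have : a' = b' := (h _).1 (funext fun j => S.ev_inj (by
        have := congrFun hab j
        beta_reduce at this
        rw [ev_comp, ev_comp, ha, hb, comp_f, comp_f, this]))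
      rw [← cancel_mono i.inv, ← ha, ← hb, this]
    · intro b
      choose c hc using fun j => S.ev_surj (AHom.f i.inv (s j) (b j))
      obtain ⟨a, ha⟩ := (h _).2 c
      refine ⟨S.Γ.map a ≫ i.hom, funext fun j => ?_⟩
      have := congrFun ha j
      beta_reduce at this ⊢
      rw [comp_f, ← ev_comp, this, hc, ← comp_f, i.inv_hom_id, id_f]
  · intro h Z
    constructor
    · intro a b hab
      refine S.Γ.map_injective ((h _).1 (funext fun j => ?_))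
      have := congrFun hab j
      beta_reduce at this ⊢
      rw [← ev_comp, ← ev_comp, this]
    · intro b
      obtain ⟨k, hk⟩ := (h _).2 (fun j => S.ev (b j))
      obtain ⟨a, rfl⟩ := S.Γ.map_surjective k
      refine ⟨a, funext fun j => S.ev_inj ?_⟩
      rw [ev_comp]
      exact congrFun hk j

lemma cop_of_basis [NoSrc V] {J : Type} {s : J → V} {X : 𝒜} {x : ∀ j, (S.Γ.obj X).X (s j)}
    (h : Basis (S.Γ.obj X) s x) :
    ∃ f : ∀ j, S.P (s j) ⟶ X, IsCop f ∧ ∀ j, S.ev (f j) = x j := by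
  choose f hf using fun j => S.ev_surj (x j)
  refine ⟨f, (S.isCop_iff f).2 ?_, hf⟩
  simpa only [hf] using h.isFree

lemma exists_cop [Fin' V] [NoSrc V] {J : Type} (s : J → V) :
    ∃ (F : 𝒜) (f : ∀ j, S.P (s j) ⟶ F), IsCop f := by
  obtain ⟨F, x, hx⟩ := exists_obj_free S.Γ s
  obtain ⟨f, hf, -⟩ := S.cop_of_basis hx.basis
  exact ⟨F, f, hf⟩

/-- Finite decompositions. -/
structure Dec (U : 𝒜) where
  J : Type
  fin : Fintype J
  s : J → V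
  f : ∀ j, S.P (s j) ⟶ U
  cop : IsCop f

attribute [instance] Dec.fin

def decId (v : V) : S.Dec (S.P v) := ⟨Unit, inferInstance, fun _ => v, fun _ => 𝟙 _, isCop_id _⟩

lemma Dec.basis [Fin' V] [NoSrc V] {S : Sys 𝒜 V} {U : 𝒜} (d : S.Dec U) :
    Basis (S.Γ.obj U) d.s (fun j => S.ev (d.f j)) :=
  ((S.isCop_iff d.f).1 d.cop).basis

end Sys

lemma exists_inv {A B : Alg V} (f : A ⟶ B) (hf : ∀ v, Function.Bijective (AHom.f f v)) :
    ∃ g : B ⟶ A, g ≫ f = 𝟙 B := by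
  choose g hg using fun v => (hf v).2
  refine ⟨⟨g, fun e x => (hf _).1 ?_⟩, hom_ext fun v x => hg v x⟩
  rw [hg, AHom.comm, hg]

variable [Fin' V] [NoSrc V] [Fin' W] [NoSrc W]

theorem exists_dec (S : Sys 𝒜 V) (S' : Sys 𝒜 W) (v : V) : Nonempty (S'.Dec (S.P v)) := by
  let Y := S.Γ.obj (S.P v)
  let Q : ∀ u, Y.X u → Prop := fun u z => ∃ (F : 𝒜) (π : F ⟶ S.P v), Nonempty (S'.Dec F) ∧
    ∃ z', AHom.f (S.Γ.map π) u z' = z
  have h1 : ∀ {u w : V} (e : u ⟶ w) (z : Y.X w), Q w z → Q u (Y.act e z) := by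
    rintro u w e _ ⟨F, π, hF, z', rfl⟩
    exact ⟨F, π, hF, _, AHom.comm _ e z'⟩
  have h2 : ∀ w (z : Y.X w), Nonempty (In w) → (∀ e : In w, Q e.1 (Y.act e.2 z)) → Q w z := by
    intro w z _ h
    choose F π d z' hz' using h
    replace d := fun e => (d e).some
    obtain ⟨G, ι, hι⟩ := S'.exists_cop (fun m : Σ e, (d e).J => (d m.1).s m.2)
    obtain ⟨ρ, hρ⟩ := (hι (S.P v)).2 (fun m => (d m.1).f m.2 ≫ π m.1)
    choose k hk using fun e => ((d e).cop G).2 (fun j => ι ⟨e, j⟩)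
    have hkρ : ∀ e, k e ≫ ρ = π e := fun e => ((d e).cop _).1 (funext fun j => by
      have h3 := congrFun (hk e) j
      have h4 := congrFun hρ ⟨e, j⟩
      beta_reduce at h3 h4 ⊢
      rw [← Category.assoc, h3, h4])
    obtain ⟨x, hx⟩ := act_surj (S.Γ.obj G) (fun e => AHom.f (S.Γ.map (k e)) _ (z' e))
    refine ⟨G, ρ, ⟨⟨_, inferInstance, _, ι, hι⟩⟩, x, act_inj _ fun e => ?_⟩
    rw [← AHom.comm, hx, ← comp_f, ← Functor.map_comp, hkρ, hz']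
  let i := S.Γ.objObjPreimageIso (sub Y Q h1 h2)
  obtain ⟨m, hm⟩ := S.Γ.map_surjective (i.hom ≫ subι Y Q h1 h2)
  have hmono : ∀ {Z : 𝒜} (b b' : Z ⟶ _), b ≫ m = b' ≫ m → b = b' := by
    intro Z b b' h
    refine S.Γ.map_injective ?_
    rw [← cancel_mono i.hom]
    refine hom_ext fun u x => Subtype.ext ?_
    have := congrArg (fun k => AHom.f (S.Γ.map k) u x) h
    simp only [Functor.map_comp, hm, comp_f] at this
    exact this
  obtain ⟨n', hn'⟩ := exists_inv (S'.Γ.map m) (fun w => by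
    constructor
    · intro z z' h
      obtain ⟨b, rfl⟩ := S'.ev_surj z
      obtain ⟨b', rfl⟩ := S'.ev_surj z'
      rw [← S'.ev_comp, ← S'.ev_comp] at h
      rw [hmono _ _ (S'.ev_inj h)]
    · intro z
      obtain ⟨a, rfl⟩ := S'.ev_surj z
      let a' : S.Γ.obj (S'.P w) ⟶ sub Y Q h1 h2 :=
        ⟨fun u x => ⟨AHom.f (S.Γ.map a) u x, _, a, ⟨S'.decId w⟩, x, rfl⟩,
          fun e x => Subtype.ext (AHom.comm (S.Γ.map a) e x)⟩
      obtain ⟨b, hb⟩ := S.Γ.map_surjective (a' ≫ i.inv)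
      refine ⟨S'.ev b, ?_⟩
      rw [← S'.ev_comp]
      congr 1
      refine S.Γ.map_injective ?_
      rw [Functor.map_comp, hb, hm, Category.assoc, i.inv_hom_id_assoc]
      rfl)
  obtain ⟨n, rfl⟩ := S'.Γ.map_surjective n'
  have hnm : n ≫ m = 𝟙 _ := S'.Γ.map_injective (by simpa using hn')
  have hQ : Q v (S.y v) := by
    have : S.y v = (AHom.f i.hom v (S.ev n)).1 := by
      rw [← S.ev_id, ← hnm, S.ev_comp, hm]
      rfl
    rw [this]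
    exact Subtype.property _
  obtain ⟨F, π, ⟨d⟩, z', hz'⟩ := hQ
  obtain ⟨σ, rfl⟩ := S.ev_surj z'
  have hσ : σ ≫ π = 𝟙 _ := S.ev_inj (by rw [S.ev_comp, hz', S.ev_id])
  obtain ⟨K, hK, s', z, hz⟩ := retract_basis d.basis (S'.Γ.map π) (S'.Γ.map σ)
    (by rw [← Functor.map_comp, hσ, CategoryTheory.Functor.map_id])
  obtain ⟨f, hf, -⟩ := S'.cop_of_basis hz
  exact ⟨⟨K, hK, s', f, hf⟩⟩

lemma dec_nonempty (S : Sys 𝒜 V) (S' : Sys 𝒜 W) (v : V) (d : S'.Dec (S.P v)) : Nonempty d.J := by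
  by_contra hJ
  have hJ' : IsEmpty d.J := not_nonempty_iff.1 hJ
  let d' : S.Dec (S.P v) := ⟨d.J, d.fin, isEmptyElim, fun j => isEmptyElim j, fun Z =>
    ⟨fun a b _ => (d.cop Z).1 (funext fun j => isEmptyElim j), fun b => by
      obtain ⟨a, -⟩ := (d.cop Z).2 (fun j => isEmptyElim j)
      exact ⟨a, funext fun j => isEmptyElim j⟩⟩⟩
  obtain ⟨L, hL⟩ := d'.basis.loc v (S.y v)
  obtain ⟨q⟩ : Nonempty (Pn v L) := inferInstance
  obtain ⟨m, -⟩ := hL _ q.1.2 q.2.ge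
  exact hJ ⟨m.1⟩

section val

variable {M : Type} [AddCommMonoid M]

open Classical in
/-- The total mass of a map into `X`. -/
noncomputable def val (S : Sys 𝒜 V) {X : 𝒜} (φ : ∀ v, (S.Γ.obj X).X v → M) {U : 𝒜}
    (h : U ⟶ X) : M :=
  if hU : Nonempty (S.Dec U) then ∑ j, φ _ (S.ev (hU.some.f j ≫ h)) else 0

lemma val_eq (S : Sys 𝒜 V) {X : 𝒜} {φ : ∀ v, (S.Γ.obj X).X v → M} (hφ : IsMeas _ φ) {U : 𝒜}
    (h : U ⟶ X) (d : S.Dec U) : val S φ h = ∑ j, φ _ (S.ev (d.f j ≫ h)) := by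
  have hU : Nonempty (S.Dec U) := ⟨d⟩
  rw [val, dif_pos hU]
  simp only [S.ev_comp]
  exact sum_eq_of_basis hU.some.basis d.basis (hφ.comp (S.Γ.map h))

lemma val_add (S : Sys 𝒜 V) {X : 𝒜} {φ : ∀ v, (S.Γ.obj X).X v → M} (hφ : IsMeas _ φ) {U : 𝒜}
    (h : U ⟶ X) {K : Type} [Fintype K] {U' : K → 𝒜} {g : ∀ k, U' k ⟶ U} (hg : IsCop g)
    (hU : ∀ k, Nonempty (S.Dec (U' k))) : val S φ h = ∑ k, val S φ (g k ≫ h) := by
  let d := fun k => (hU k).some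
  rw [val_eq S hφ h ⟨_, inferInstance, _, _, hg.sigma fun k => (d k).cop⟩, Fintype.sum_sigma]
  refine Finset.sum_congr rfl fun k _ => ?_
  rw [val_eq S hφ _ (d k)]
  simp only [Category.assoc]

omit [Fin' V] [NoSrc V] in
lemma val_map (S : Sys 𝒜 V) {X : 𝒜} (φ : ∀ v, (S.Γ.obj X).X v → M) {U : 𝒜} (h : U ⟶ X)
    {N : Type} [AddCommMonoid N] (θ : M →+ N) :
    val S (fun v x => θ (φ v x)) h = θ (val S φ h) := by
  unfold val
  split_ifs
  · rw [map_sum]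
  · simp

omit [Fin' V] [NoSrc V] in
lemma val_comp (S : Sys 𝒜 V) {X X' : 𝒜} (φ : ∀ v, (S.Γ.obj X).X v → M) {U : 𝒜} (h : U ⟶ X')
    (t : X' ⟶ X) : val S (fun v x => φ v (AHom.f (S.Γ.map t) v x)) h = val S φ (h ≫ t) := by
  unfold val
  simp only [← S.ev_comp, Category.assoc]

/-- Transfer of measures. -/
noncomputable def tr (S : Sys 𝒜 V) (S' : Sys 𝒜 W) {X : 𝒜} (φ : ∀ v, (S.Γ.obj X).X v → M)
    (w : W) (x : (S'.Γ.obj X).X w) : M := val S φ (S'.ev_surj x).choose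

omit [Fin' V] [NoSrc V] [Fin' W] [NoSrc W] in
lemma tr_ev (S : Sys 𝒜 V) (S' : Sys 𝒜 W) {X : 𝒜} (φ : ∀ v, (S.Γ.obj X).X v → M)
    {w : W} (a : S'.P w ⟶ X) : tr S S' φ w (S'.ev a) = val S φ a := by
  rw [tr, S'.ev_inj (S'.ev_surj (S'.ev a)).choose_spec]

lemma tr_meas (S : Sys 𝒜 V) (S' : Sys 𝒜 W) {X : 𝒜} {φ : ∀ v, (S.Γ.obj X).X v → M}
    (hφ : IsMeas _ φ) : IsMeas _ (tr S S' φ) := by
  intro w x
  obtain ⟨a, rfl⟩ := S'.ev_surj x
  choose g hg using fun e : In w => S'.ev_surj ((S'.Γ.obj (S'.P w)).act e.2 (S'.y w))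
  have hc : IsCop g := by
    rw [S'.isCop_iff]
    simp only [hg]
    intro B
    constructor
    · intro f f' h
      refine (S'.hy w B).1 (funext fun _ => act_inj B fun e => ?_)
      rw [← AHom.comm, ← AHom.comm]
      exact congrFun h e
    · intro b
      obtain ⟨c, hc⟩ := act_surj B b
      obtain ⟨f, hf⟩ := (S'.hy w B).2 (fun _ => c)
      refine ⟨f, funext fun e => ?_⟩
      have := congrFun hf ()
      beta_reduce at this ⊢
      rw [AHom.comm, this, hc]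
  rw [tr_ev, val_add S hφ a hc (fun e => exists_dec S' S _)]
  refine Finset.sum_congr rfl fun e _ => ?_
  rw [← tr_ev S S', S'.ev_comp, hg, AHom.comm]
  rfl

lemma tr_tr (S : Sys 𝒜 V) (S' : Sys 𝒜 W) {X : 𝒜} {φ : ∀ v, (S.Γ.obj X).X v → M}
    (hφ : IsMeas _ φ) (v : V) (x : (S.Γ.obj X).X v) : tr S' S (tr S S' φ) v x = φ v x := by
  obtain ⟨a, rfl⟩ := S.ev_surj x
  obtain ⟨d⟩ := exists_dec S S' v
  rw [tr_ev, val_eq S' (tr_meas S S' hφ) a d]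
  simp only [tr_ev]
  rw [← val_add S hφ a d.cop (fun k => exists_dec S' S _), val_eq S hφ a (S.decId v)]
  simp [Sys.decId]

omit [Fin' V] [NoSrc V] [Fin' W] [NoSrc W] in
lemma tr_map (S : Sys 𝒜 V) (S' : Sys 𝒜 W) {X : 𝒜} (φ : ∀ v, (S.Γ.obj X).X v → M)
    {N : Type} [AddCommMonoid N] (θ : M →+ N) (w : W) (x : (S'.Γ.obj X).X w) :
    tr S S' (fun v x => θ (φ v x)) w x = θ (tr S S' φ w x) := val_map _ _ _ _

omit [Fin' V] [NoSrc V] [Fin' W] [NoSrc W] in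
lemma tr_comp (S : Sys 𝒜 V) (S' : Sys 𝒜 W) {X X' : 𝒜} (φ : ∀ v, (S.Γ.obj X).X v → M)
    (t : X' ⟶ X) (w : W) (x : (S'.Γ.obj X').X w) :
    tr S S' (fun v x => φ v (AHom.f (S.Γ.map t) v x)) w x =
      tr S S' φ w (AHom.f (S'.Γ.map t) w x) := by
  obtain ⟨a, rfl⟩ := S'.ev_surj x
  rw [← S'.ev_comp, tr_ev, tr_ev, val_comp]

lemma tr_pos (S : Sys 𝒜 V) (S' : Sys 𝒜 W) {X : 𝒜} {φ : ∀ v, (S.Γ.obj X).X v → ℝ}
    (hφ : IsMeas _ φ) (hpos : ∀ v x, 0 < φ v x) (w : W) (x : (S'.Γ.obj X).X w) :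
    0 < tr S S' φ w x := by
  obtain ⟨a, rfl⟩ := S'.ev_surj x
  obtain ⟨d⟩ := exists_dec S' S w
  have := dec_nonempty S' S w d
  rw [tr_ev, val_eq S hφ a d]
  exact Finset.sum_pos (fun _ _ => hpos _ _) Finset.univ_nonempty

end val

lemma tors_transfer (S : Sys 𝒜 V) (S' : Sys 𝒜 W) {T : 𝒜} {τ : ℤ → (T ⟶ T)}
    (h : Tors (S'.Γ.obj T) (fun n => S'.Γ.map (τ n))) :
    Tors (S.Γ.obj T) (fun n => S.Γ.map (τ n)) := by
  have h0 : τ 0 = 𝟙 T := S'.Γ.map_injective (by simpa using h.zero)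
  have h1 : ∀ a b, τ (a + b) = τ a ≫ τ b := fun a b =>
    S'.Γ.map_injective (by simpa using h.add a b)
  refine ⟨by simp [h0], fun a b => by simp [h1], fun v => ?_, fun v g g' => ?_, fun v g n hg => ?_⟩
  · obtain ⟨d⟩ := exists_dec S S' v
    choose b _ using fun j => S'.ev_surj (h.ne (d.s j)).some
    obtain ⟨a, -⟩ := (d.cop T).2 b
    exact ⟨S.ev a⟩
  · obtain ⟨a, rfl⟩ := S.ev_surj g
    obtain ⟨a', rfl⟩ := S.ev_surj g'
    obtain ⟨d⟩ := exists_dec S S' v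
    choose L hL using fun j => h.loc _ (S'.ev (d.f j ≫ a)) (S'.ev (d.f j ≫ a'))
    obtain ⟨z, hz, hz'⟩ := S'.cop_of_basis (d.basis.refine L)
    have hn : ∀ m, ∃ n, z m ≫ a' = z m ≫ a ≫ τ n := by
      intro m
      obtain ⟨n, hn⟩ := hL m.1 _ m.2.1.2 m.2.2.ge
      refine ⟨n, S'.ev_inj ?_⟩
      rw [← Category.assoc, S'.ev_comp, S'.ev_comp, S'.ev_comp, hz', hom_pa, hom_pa,
        ← S'.ev_comp, ← S'.ev_comp, hn]
    let d' := fun m : Σ j, Pn (d.s j) (L j) => (exists_dec S' S m.2.1.1).some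
    let D : S.Dec (S.P v) := ⟨_, inferInstance, _, _, hz.sigma fun m => (d' m).cop⟩
    obtain ⟨N, hN⟩ := D.basis.loc v (S.y v)
    refine ⟨N, fun u p hp => ?_⟩
    obtain ⟨⟨⟨m, j⟩, θ⟩, hθ⟩ := hN u p hp
    obtain ⟨n, hn⟩ := hn m
    refine ⟨n, ?_⟩
    simp only [D] at θ hθ
    rw [Sys.ev, Sys.ev, ← hom_pa, ← hom_pa, hθ, hom_pa, hom_pa, hom_pa, ← S.ev_comp, ← S.ev_comp,
      ← S.ev_comp]
    simp only [Category.assoc, hn]
  · obtain ⟨a, rfl⟩ := S.ev_surj g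
    obtain ⟨d⟩ := exists_dec S S' v
    obtain ⟨j⟩ := dec_nonempty S S' v d
    have h2 : a ≫ τ n = a := S.ev_inj (by rw [S.ev_comp]; exact hg)
    refine h.free _ (S'.ev (d.f j ≫ a)) n ?_
    rw [← S'.ev_comp, Category.assoc, h2]

end Pool.Agent.H.MP_b5e7a1_al
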