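import Mathlib

namespace Pool.Agent.H.MP_b5e7a1_al

open Matrix Polynomial

/-- Fitting type lemma: a quotient of a cokernel. -/
lemma det_dvd_of_surj {R ι κ : Type} [CommRing R] [Fintype ι] [DecidableEq ι] [Fintype κ]
    [DecidableEq κ] (U : Matrix ι ι R) (U' : Matrix κ κ R)
    (β : ((κ → R) ⧸ LinearMap.range U'.mulVecLin) →ₗ[R] ((ι → R) ⧸ LinearMap.range U.mulVecLin))
    (hβ : Function.Surjective β) : U.det ∣ U'.det := by
  obtain ⟨b, hb⟩ := Module.projective_lifting_property (LinearMap.range U.mulVecLin).mkQ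
    (β ∘ₗ (LinearMap.range U'.mulVecLin).mkQ) (Submodule.mkQ_surjective _)
  obtain ⟨a, ha⟩ := Module.projective_lifting_property (β ∘ₗ (LinearMap.range U'.mulVecLin).mkQ)
    (LinearMap.range U.mulVecLin).mkQ (hβ.comp (Submodule.mkQ_surjective _))
  have key : ∀ z : ι ⊕ κ → R, ∃ c, fromBlocks U (-LinearMap.toMatrix' b) 0 1 *ᵥ c =
      fromBlocks 1 0 (-LinearMap.toMatrix' a) U' *ᵥ z := by
    intro z
    have h1 : (z ∘ Sum.inl) + b (-a (z ∘ Sum.inl) + U' *ᵥ (z ∘ Sum.inr)) ∈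
        LinearMap.range U.mulVecLin := by
      rw [← Submodule.Quotient.mk_eq_zero, ← Submodule.mkQ_apply, map_add]
      have h2 := LinearMap.congr_fun hb (-a (z ∘ Sum.inl) + U' *ᵥ (z ∘ Sum.inr))
      have h3 := LinearMap.congr_fun ha (z ∘ Sum.inl)
      have h4 : (LinearMap.range U'.mulVecLin).mkQ (U' *ᵥ (z ∘ Sum.inr)) = 0 :=
        (Submodule.Quotient.mk_eq_zero _).2 ⟨_, rfl⟩
      simp only [LinearMap.comp_apply] at h2 h3
      rw [h2, map_add, h4, map_neg, add_zero, map_neg, h3, add_neg_cancel]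
    obtain ⟨p, hp⟩ := h1
    refine ⟨Sum.elim p (-a (z ∘ Sum.inl) + U' *ᵥ (z ∘ Sum.inr)), ?_⟩
    rw [mulVecLin_apply] at hp
    rw [fromBlocks_mulVec, fromBlocks_mulVec]
    simp only [Sum.elim_comp_inl, Sum.elim_comp_inr, hp, neg_mulVec, LinearMap.toMatrix'_mulVec,
      zero_mulVec, one_mulVec, zero_add, add_zero, add_neg_cancel_right]
  choose c hc using fun j => key (Pi.single j 1)
  have h : fromBlocks U (-LinearMap.toMatrix' b) 0 1 * (Matrix.of fun i j => c j i) =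
      fromBlocks 1 0 (-LinearMap.toMatrix' a) U' := by
    ext i j
    have := congrFun (hc j) i
    rw [mulVec_single_one] at this
    exact this
  have h' := congrArg det h
  rw [det_mul, det_fromBlocks_zero₂₁, det_fromBlocks_zero₁₂, det_one, det_one, mul_one,
    one_mul] at h'
  exact ⟨_, h'.symm⟩

lemma det_ne_zero_of_le {ι : Type} [Fintype ι] [DecidableEq ι] (M : Matrix ι ι ℝ)
    (hM : ∀ i j, 0 ≤ M i j) (y : ι → ℝ) (hy : ∀ i, 0 < y i) (h : ∀ i, (M *ᵥ y) i ≤ y i)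
    (l : ℝ) (h0 : 0 ≤ l) (h1 : l < 1) : (1 - l • M).det ≠ 0 := by
  intro hd
  obtain ⟨z, hz, hz'⟩ := exists_mulVec_eq_zero_iff.2 hd
  obtain ⟨j, hj⟩ := Function.ne_iff.1 hz
  haveI : Nonempty ι := ⟨j⟩
  obtain ⟨i, hi⟩ := Finite.exists_max fun i => |z i| / y i
  set c := |z i| / y i with hc
  have hc0 : 0 < c := lt_of_lt_of_le (div_pos (abs_pos.2 hj) (hy j)) (hi j)
  have h2 : ∀ k, |z k| ≤ c * y k := fun k => (div_le_iff₀ (hy k)).1 (hi k)
  have h3 : z i = l * (M *ᵥ z) i := by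
    have := congrFun hz' i
    rw [sub_mulVec, one_mulVec, smul_mulVec] at this
    simpa [sub_eq_zero] using this
  have h4 : |(M *ᵥ z) i| ≤ c * (M *ᵥ y) i := by
    simp only [mulVec, dotProduct]
    rw [Finset.mul_sum]
    refine (Finset.abs_sum_le_sum_abs _ _).trans (Finset.sum_le_sum fun k _ => ?_)
    rw [abs_mul, abs_of_nonneg (hM i k)]
    nlinarith [h2 k, hM i k]
  have h5 : |z i| = c * y i := by rw [hc, div_mul_cancel₀ _ (hy i).ne']
  have h6 : |z i| ≤ l * (c * y i) := by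
    rw [h3, abs_mul, abs_of_nonneg h0]
    exact mul_le_mul_of_nonneg_left (h4.trans (mul_le_mul_of_nonneg_left (h i) hc0.le)) h0
  have := mul_pos hc0 (hy i)
  nlinarith

lemma det_zero_of_nonpos {ι : Type} [Fintype ι] [DecidableEq ι] (M : Matrix ι ι ℝ) (l : ℝ)
    (h0 : 0 ≤ l) (h : (1 - l • M).det ≤ 0) : ∃ k ∈ Set.Icc 0 l, (1 - k • M).det = 0 := by
  have hc : Continuous fun k : ℝ => (1 - k • M).det :=
    Continuous.matrix_det (continuous_const.sub (continuous_id.smul continuous_const))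
  exact intermediate_value_Icc' h0 hc.continuousOn ⟨h, by simp⟩

lemma det_pos_of_le {ι : Type} [Fintype ι] [DecidableEq ι] (M : Matrix ι ι ℝ)
    (hM : ∀ i j, 0 ≤ M i j) (y : ι → ℝ) (hy : ∀ i, 0 < y i) (h : ∀ i, (M *ᵥ y) i ≤ y i)
    (l : ℝ) (h0 : 0 ≤ l) (h1 : l < 1) : 0 < (1 - l • M).det := by
  by_contra hn
  obtain ⟨k, hk, hk'⟩ := det_zero_of_nonpos M l h0 (not_lt.1 hn)
  exact det_ne_zero_of_le M hM y hy h k hk.1 (hk.2.trans_lt h1) hk'

lemma det_nonneg_of_le {ι : Type} [Fintype ι] [DecidableEq ι] (M : Matrix ι ι ℝ)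
    (hM : ∀ i j, 0 ≤ M i j) (y : ι → ℝ) (hy : ∀ i, 0 < y i) (h : ∀ i, (M *ᵥ y) i ≤ y i) :
    0 ≤ (1 - M).det := by
  by_contra hn
  obtain ⟨k, hk, hk'⟩ := det_zero_of_nonpos M 1 zero_le_one (by simpa using (not_le.1 hn).le)
  rcases hk.2.lt_or_eq with h1 | rfl
  · exact det_ne_zero_of_le M hM y hy h k hk.1 h1 hk'
  · exact hn (by simpa using hk'.ge)

lemma det_one_sub_nil {ι : Type} [Fintype ι] [DecidableEq ι] (N : Matrix ι ι ℝ)
    (hN : IsNilpotent N) : (1 - N).det = 1 := by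
  obtain ⟨r, -, hr⟩ := Polynomial.isUnit_iff.1 (isUnit_charpolyRev_of_isNilpotent hN)
  have h0 := eval_charpolyRev (M := N)
  have h1 : (evalRingHom (1 : ℝ)) N.charpolyRev = (1 - N).det := by
    rw [charpolyRev, RingHom.map_det]
    congr 1
    ext i j
    simp [Matrix.one_apply, apply_ite]
  rw [← h1, ← hr]
  rw [← hr] at h0
  simpa using h0

lemma det_sync {ι V : Type} [Fintype ι] [DecidableEq ι] [Fintype V] [DecidableEq V]
    (N : Matrix ι ι ℝ) (A : Matrix V V ℝ) (P : Matrix ι V ℝ) (S : Matrix V ι ℝ) (h1 : S * P = 1)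
    (h2 : N * P = P * A) (L : ℕ) (h3 : (1 - P * S) * N ^ L = 0) :
    (1 - N).det = (1 - A).det := by
  have h4 : (1 - P * S) * P = 0 := by
    rw [Matrix.sub_mul, Matrix.one_mul, Matrix.mul_assoc, h1, Matrix.mul_one, sub_self]
  have h5 : (1 - P * S) * N * P = 0 := by
    rw [Matrix.mul_assoc, h2, ← Matrix.mul_assoc, h4, Matrix.zero_mul]
  have h6 : ∀ k, ((1 - P * S) * N) ^ (k + 1) = (1 - P * S) * N ^ (k + 1) := by
    intro k
    induction k with
    | zero => simp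
    | succ k ih =>
      rw [pow_succ', ih, ← mul_assoc, mul_sub ((1 - P * S) * N), mul_one, ← Matrix.mul_assoc, h5,
        Matrix.zero_mul, sub_zero, mul_assoc, ← pow_succ']
  have hnil : IsNilpotent ((1 - P * S) * N) :=
    ⟨L + 1, by rw [h6, pow_succ, ← mul_assoc, h3, zero_mul]⟩
  obtain ⟨G, hG⟩ := hnil.isUnit_one_sub.exists_left_inv
  have h7 : G * P = P := by
    have : (1 - (1 - P * S) * N) * P = P := by rw [Matrix.sub_mul, h5, Matrix.one_mul, sub_zero]
    rw [← this, ← Matrix.mul_assoc, hG, Matrix.one_mul, this]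
  have h8 : 1 - N = (1 - P * (S * N * G)) * (1 - (1 - P * S) * N) := by
    rw [sub_mul 1, one_mul, Matrix.mul_assoc P, Matrix.mul_assoc (S * N), hG, Matrix.mul_one,
      sub_mul 1, one_mul, Matrix.mul_assoc P]
    abel
  rw [h8, det_mul, det_one_sub_nil _ hnil, mul_one, det_one_sub_mul_comm, Matrix.mul_assoc, h7,
    Matrix.mul_assoc, h2, ← Matrix.mul_assoc, h1, Matrix.one_mul]

open LaurentPolynomial in
/-- Evaluation of Laurent polynomials at a positive real. -/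
noncomputable def evL (r : ℝ) (hr : 0 < r) : ℤ[T;T⁻¹] →+* ℝ :=
  LaurentPolynomial.eval₂ (Int.castRingHom ℝ) (Units.mk0 r hr.ne')

lemma evL_T (r : ℝ) (hr : 0 < r) (n : ℤ) : evL r hr (LaurentPolynomial.T n) = r ^ n := by
  simp [evL, LaurentPolynomial.eval₂_T]

open LaurentPolynomial in
lemma evL_unit (u u' : ℤ[T;T⁻¹]) (h : u * u' = 1) (r : ℝ) (hr : 0 < r) (h0 : 0 ≤ evL r hr u) :
    evL 1 one_pos u = 1 := by
  obtain ⟨n, f, hf⟩ := exists_T_pow u
  obtain ⟨n', f', hf'⟩ := exists_T_pow u'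
  have h1 : f * f' = X ^ (n + n') := by
    apply Polynomial.toLaurent_injective
    rw [map_mul, hf, hf', Polynomial.toLaurent_X_pow, mul_mul_mul_comm, h, one_mul, ← T_add]
    simp
  obtain ⟨i, -, w, hw⟩ := (dvd_prime_pow Polynomial.prime_X (n + n')).1 ⟨f', h1.symm⟩
  obtain ⟨c, hc, hcw⟩ := Polynomial.isUnit_iff.1 w.isUnit
  have h2 : ∀ (s : ℝ) (hs : 0 < s), evL s hs u * s ^ n * c = s ^ i := by
    intro s hs
    have := congrArg (fun p => evL s hs (Polynomial.toLaurent p)) hw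
    simp only [← hcw, map_mul, hf, evL_T, Polynomial.toLaurent_X_pow, Polynomial.toLaurent_C] at this
    simpa [evL] using this
  rcases Int.isUnit_iff.1 hc with rfl | rfl
  · simpa using h2 1 one_pos
  · exfalso
    have h3 := h2 r hr
    have h4 := pow_pos hr n
    have h5 := pow_pos hr i
    have := mul_nonneg h0 h4.le
    push_cast at h3
    linarith

open LaurentPolynomial in
lemma evL_eq (D D' : ℤ[T;T⁻¹]) (h : D ∣ D') (h' : D' ∣ D) (r : ℝ) (hr : 0 < r)
    (h0 : 0 ≤ evL r hr D) (h1 : 0 < evL r hr D') : evL 1 one_pos D = evL 1 one_pos D' := by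
  obtain ⟨u', hu'⟩ := h
  obtain ⟨u, hu⟩ := h'
  have hD : D' ≠ 0 := by rintro rfl; simp at h1
  have h2 : u * u' = 1 := mul_left_cancel₀ hD (by rw [← mul_assoc, ← hu, ← hu', mul_one])
  have h3 : 0 ≤ evL r hr u := by
    rw [hu, map_mul] at h0
    exact (mul_nonneg_iff_of_pos_left h1).1 h0
  rw [hu, map_mul, evL_unit u u' h2 r hr h3, mul_one]

end Pool.Agent.H.MP_b5e7a1_al
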