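import Pool.Agent.H.MP_b5e7a1_al.C
import Pool.Agent.H.MP_b5e7a1_al.L

namespace Pool.Agent.H.MP_b5e7a1_al

open CategoryTheory Quiver Matrix

variable {V W : Type} [Quiver.{0} V] [Quiver.{0} W]

lemma Tors.tt {A : Alg V} {τ : ℤ → (A ⟶ A)} (h : Tors A τ) (a b : ℤ) (v : V) (x : A.X v) :
    AHom.f (τ a) v (AHom.f (τ b) v x) = AHom.f (τ (a + b)) v x := by
  rw [add_comm, h.add, comp_f]

lemma Tors.t0 {A : Alg V} {τ : ℤ → (A ⟶ A)} (h : Tors A τ) (v : V) (x : A.X v) :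
    AHom.f (τ 0) v x = x := by
  rw [h.zero, id_f]

/-- Finite models of torsors. -/
structure Model (A : Alg V) (τ : ℤ → (A ⟶ A)) where
  I : V → Type
  fin : ∀ v, Finite (I v)
  ne : ∀ v, Nonempty (I v)
  g : ∀ v, I v → A.X v
  nxt : ∀ {u v : V}, (u ⟶ v) → I v → I u
  wt : ∀ {u v : V}, (u ⟶ v) → I v → ℤ
  act_g : ∀ {u v : V} (e : u ⟶ v) (i : I v),
    A.act e (g v i) = AHom.f (τ (wt e i)) u (g u (nxt e i))
  inj : ∀ v (i i' : I v) n, AHom.f (τ n) v (g v i) = g v i' → i = i'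

attribute [instance] Model.fin Model.ne

lemma exists_model [Fin' V] [Fintype V] {A : Alg V} {τ : ℤ → (A ⟶ A)} (h : Tors A τ) :
    Nonempty (Model A τ) := by
  let orb : ∀ v, Setoid (A.X v) := fun v =>
    ⟨fun x x' => ∃ n, x = AHom.f (τ n) v x', fun x => ⟨0, (h.t0 v x).symm⟩,
      fun ⟨n, hn⟩ => ⟨-n, by rw [hn, h.tt, neg_add_cancel, h.t0]⟩,
      fun ⟨n, hn⟩ ⟨m, hm⟩ => ⟨n + m, by rw [hn, hm, h.tt]⟩⟩
  let g0 : ∀ v, A.X v := fun v => (h.ne v).some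
  let Q : ∀ v, Quotient (orb v) → Prop := fun v o =>
    ∃ (w : V) (p : Path v w), o = Quotient.mk (orb v) (A.pa p (g0 w))
  have hact : ∀ {u v : V} (e : u ⟶ v) (x x' : A.X v), Quotient.mk (orb v) x = Quotient.mk (orb v) x' →
      Quotient.mk (orb u) (A.act e x) = Quotient.mk (orb u) (A.act e x') := by
    intro u v e x x' hx
    obtain ⟨n, hn⟩ := Quotient.exact hx
    exact Quotient.sound ⟨n, by rw [hn, AHom.comm]⟩
  have hQ : ∀ {u v : V} (e : u ⟶ v) (o : {o // Q v o}),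
      Q u (Quotient.mk (orb u) (A.act e o.1.out)) := by
    rintro u v e ⟨_, w, p, rfl⟩
    refine ⟨w, e.toPath.comp p, ?_⟩
    rw [pa_comp, pa_toPath]
    exact hact e _ _ (Quotient.out_eq _)
  have hw : ∀ {u v : V} (e : u ⟶ v) (o : {o // Q v o}), ∃ n, A.act e o.1.out =
      AHom.f (τ n) u (Quotient.mk (orb u) (A.act e o.1.out)).out := fun e o =>
    Quotient.exact (Quotient.out_eq (s := orb _) _).symm
  choose wt hwt using @hw
  choose L hL using fun a : Σ v : V, In v => h.loc a.2.1 (g0 _) (A.act a.2.2 (g0 _))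
  let N := Finset.univ.sup L
  have hN : ∀ {v w : V} (p : Path v w), ∃ (w' : V) (p' : Path v w'), p'.length ≤ N ∧
      Quotient.mk (orb v) (A.pa p (g0 w)) = Quotient.mk (orb v) (A.pa p' (g0 w')) := by
    intro v w p
    induction p with
    | nil => exact ⟨v, .nil, by simp, rfl⟩
    | cons p e ih =>
      by_cases hp : N ≤ p.length
      · obtain ⟨w', p', h1, h2⟩ := ih
        refine ⟨w', p', h1, Eq.trans ?_ h2⟩
        rw [pa_cons]
        exact Quotient.sound (hL ⟨_, _, e⟩ v p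
          (le_trans (Finset.le_sup (f := L) (Finset.mem_univ _)) hp))
      · exact ⟨_, p.cons e, by simp; omega, rfl⟩
  refine ⟨⟨fun v => {o // Q v o}, fun v => ?_, fun v => ⟨⟨_, v, .nil, rfl⟩⟩, fun v o => o.1.out,
    fun e o => ⟨_, hQ e o⟩, fun e o => wt e o, fun e o => hwt e o, fun v i i' n hn => ?_⟩⟩
  · let F : (Σ w : V, Σ n : Fin (N + 1), Pn w n) → Σ v, Quotient (orb v) := fun q =>
      ⟨q.2.2.1.1, Quotient.mk _ (A.pa q.2.2.1.2 (g0 q.1))⟩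
    have h1 : {o | Q v o} ⊆ (fun o => (⟨v, o⟩ : Σ v, Quotient (orb v))) ⁻¹' Set.range F := by
      rintro _ ⟨w, p, rfl⟩
      obtain ⟨w', p', h1, h2⟩ := hN p
      exact ⟨⟨w', ⟨p'.length, by omega⟩, ⟨⟨v, p'⟩, rfl⟩⟩, by rw [h2]⟩
    exact ((Set.finite_range F).preimage sigma_mk_injective.injOn).subset h1
  · refine Subtype.ext ?_
    rw [← Quotient.out_eq i.1, ← Quotient.out_eq i'.1]
    exact (Quotient.sound (s := orb v) ⟨n, hn.symm⟩).symm

namespace Model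

variable {A : Alg V} {τ : ℤ → (A ⟶ A)} (m : Model A τ)

def nxtp {u : V} : ∀ {v : V}, Path u v → m.I v → m.I u
  | _, .nil, i => i
  | _, .cons p e, i => nxtp p (m.nxt e i)

lemma pa_g (h : Tors A τ) {u v : V} (p : Path u v) (i : m.I v) :
    ∃ n, A.pa p (m.g v i) = AHom.f (τ n) u (m.g u (m.nxtp p i)) := by
  induction p with
  | nil => exact ⟨0, by simp [nxtp, h.t0]⟩
  | cons p e ih =>
    obtain ⟨n, hn⟩ := ih (m.nxt e i)
    exact ⟨m.wt e i + n, by rw [pa_cons, m.act_g, ← hom_pa, hn, h.tt, nxtp]⟩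

def S (v : V) (x : A.X v) : Prop := ∃ a : ℤ × m.I v, x = AHom.f (τ a.1) v (m.g v a.2)

lemma S_act (h : Tors A τ) {u v : V} (e : u ⟶ v) (x : A.X v) (hx : m.S v x) :
    m.S u (A.act e x) := by
  obtain ⟨⟨n, i⟩, rfl⟩ := hx
  exact ⟨(n + m.wt e i, m.nxt e i), by rw [← AHom.comm, m.act_g, h.tt]⟩

lemma S_loc (h : Tors A τ) (v : V) (x : A.X v) : Loc A m.S v x := by
  obtain ⟨i⟩ := m.ne v
  obtain ⟨L, hL⟩ := h.loc v (m.g v i) x
  refine ⟨L, fun u p hp => ?_⟩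
  obtain ⟨n, hn⟩ := hL u p hp
  obtain ⟨k, hk⟩ := m.pa_g h p i
  exact ⟨(n + k, m.nxtp p i), by rw [hn, hk, h.tt]⟩

lemma S_uniq (h : Tors A τ) (v : V) (a b : ℤ × m.I v)
    (hab : AHom.f (τ a.1) v (m.g v a.2) = AHom.f (τ b.1) v (m.g v b.2)) : a = b := by
  obtain ⟨n, i⟩ := a
  obtain ⟨k, j⟩ := b
  have h1 : AHom.f (τ (-k + n)) v (m.g v i) = m.g v j := by
    rw [← h.tt, hab, h.tt, neg_add_cancel, h.t0]
  obtain rfl := m.inj v i j _ h1
  have := h.free _ _ _ h1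
  rw [show n = k by omega]

lemma sync [Fintype V] (h : Tors A τ) : ∃ L, ∀ (v : V) (i i' : m.I v) (u : V) (p : Path u v),
    p.length = L → m.nxtp p i = m.nxtp p i' := by
  haveI := Fintype.ofFinite (Σ v, m.I v × m.I v)
  choose L hL using fun a : Σ v, m.I v × m.I v => h.loc a.1 (m.g _ a.2.1) (m.g _ a.2.2)
  refine ⟨Finset.univ.sup L, fun v i i' u p hp => ?_⟩
  obtain ⟨n, hn⟩ := hL ⟨v, i, i'⟩ u p
    (le_trans (Finset.le_sup (f := L) (Finset.mem_univ _)) hp.ge)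
  obtain ⟨k, hk⟩ := m.pa_g h p i
  obtain ⟨k', hk'⟩ := m.pa_g h p i'
  simp only at hn
  rw [hk, hk', h.tt] at hn
  exact (congrArg Prod.snd (m.S_uniq h u (k', _) (n + k, _) hn)).symm

abbrev ι : Type := Σ v, m.I v

noncomputable instance [Fintype V] : Fintype m.ι := Fintype.ofFinite _

noncomputable instance : DecidableEq m.ι := Classical.decEq _

variable [Fin' V]

lemma exists_meas [NoSrc V] (h : Tors A τ) {M : Type} [AddCommMonoid M] (θ : ℤ → M →+ M)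
    (hθ : ∀ a b x, θ (a + b) x = θ a (θ b x)) (a : m.ι → M)
    (ha : ∀ i : m.ι, a i = ∑ e : In i.1, θ (m.wt e.2 i.2) (a ⟨e.1, m.nxt e.2 i.2⟩)) :
    ∃ φ : ∀ v, A.X v → M, IsMeas A φ ∧ (∀ n v i, φ v (AHom.f (τ n) v (m.g v i)) = θ n (a ⟨v, i⟩)) ∧
      ∀ n v x, φ v (AHom.f (τ n) v x) = θ n (φ v x) := by
  classical
  let φ0 : ∀ v, A.X v → M := fun v x =>
    if hx : m.S v x then θ hx.choose.1 (a ⟨v, hx.choose.2⟩) else 0
  have h0 : ∀ n v i, φ0 v (AHom.f (τ n) v (m.g v i)) = θ n (a ⟨v, i⟩) := by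
    intro n v i
    have hx : m.S v (AHom.f (τ n) v (m.g v i)) := ⟨(n, i), rfl⟩
    simp only [φ0, dif_pos hx]
    rw [← m.S_uniq h v (n, i) hx.choose hx.choose_spec]
  obtain ⟨φ, h1, h2⟩ := ext_meas (m.S_act h) (m.S_loc h) φ0 (by
    rintro v _ ⟨⟨n, i⟩, rfl⟩
    rw [h0, ha, map_sum]
    refine Finset.sum_congr rfl fun e _ => ?_
    rw [← AHom.comm, m.act_g, h.tt, h0, hθ])
  have h3 : ∀ n v i, φ v (AHom.f (τ n) v (m.g v i)) = θ n (a ⟨v, i⟩) := fun n v i => by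
    rw [h2 _ _ ⟨(n, i), rfl⟩, h0]
  refine ⟨φ, h1, h3, fun n => meas_eq_of_loc (m.S_loc h) (h1.comp (τ n)) (h1.map (θ n)) ?_⟩
  rintro v _ ⟨⟨k, i⟩, rfl⟩
  rw [h.tt, h3, h3, hθ]

/-- The weighted adjacency matrix of a model. -/
noncomputable def mat {R : Type} [CommRing R] (θ : ℤ → R) : Matrix m.ι m.ι R := fun i i' =>
  ∑ e : In i.1, if (⟨e.1, m.nxt e.2 i.2⟩ : m.ι) = i' then θ (m.wt e.2 i.2) else 0

lemma mat_smul [Fintype V] {R M : Type} [CommRing R] [AddCommGroup M] [Module R M] (θ : ℤ → R)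
    (a : m.ι → M) (i : m.ι) :
    ∑ i', m.mat θ i i' • a i' = ∑ e : In i.1, θ (m.wt e.2 i.2) • a ⟨e.1, m.nxt e.2 i.2⟩ := by
  simp only [mat, Finset.sum_smul]
  rw [Finset.sum_comm]
  simp [ite_smul]

lemma mat_mulVec [Fintype V] {R : Type} [CommRing R] (θ : ℤ → R) (a : m.ι → R) (i : m.ι) :
    (m.mat θ *ᵥ a) i = ∑ e : In i.1, θ (m.wt e.2 i.2) * a ⟨e.1, m.nxt e.2 i.2⟩ :=
  m.mat_smul θ a i

lemma mat_map [Fintype V] {R R' : Type} [CommRing R] [CommRing R'] (θ : ℤ → R) (f : R →+* R') :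
    f (1 - m.mat θ).det = (1 - m.mat (fun n => f (θ n))).det := by
  rw [RingHom.map_det, map_sub, map_one]
  congr 2
  ext i j
  simp [mat, apply_ite f]

lemma mat_nonneg (θ : ℤ → ℝ) (hθ : ∀ n, 0 ≤ θ n) (i j : m.ι) : 0 ≤ m.mat θ i j :=
  Finset.sum_nonneg fun _ _ => by split_ifs; exacts [hθ _, le_rfl]

open Classical in
/-- The transposed adjacency matrix. -/
noncomputable def adjT (V : Type) [Quiver.{0} V] [Fin' V] : Matrix V V ℝ := fun v u =>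
  ∑ e : In v, if e.1 = u then 1 else 0

lemma det_one [Fintype V] [DecidableEq V] (h : Tors A τ) :
    (1 - m.mat (fun _ => (1 : ℝ))).det = (1 - adjT V).det := by
  obtain ⟨L, hL⟩ := m.sync h
  let i0 : ∀ v, m.I v := fun v => (m.ne v).some
  let P : Matrix m.ι V ℝ := fun i v => if i.1 = v then 1 else 0
  let S : Matrix V m.ι ℝ := fun v i => if (⟨v, i0 v⟩ : m.ι) = i then 1 else 0
  have hP : ∀ x i, (P *ᵥ x) i = x i.1 := fun x i => by simp [P, mulVec, dotProduct]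
  have hS : ∀ x v, (S *ᵥ x) v = x ⟨v, i0 v⟩ := fun x v => by simp [S, mulVec, dotProduct]
  have key : ∀ (k : ℕ) (v : V) (i i' : m.I v),
      (∀ u (p : Path u v), p.length = k → m.nxtp p i = m.nxtp p i') → ∀ x,
      (m.mat (fun _ => (1 : ℝ)) ^ k *ᵥ x) ⟨v, i⟩ = (m.mat (fun _ => (1 : ℝ)) ^ k *ᵥ x) ⟨v, i'⟩ := by
    intro k
    induction k with
    | zero =>
      intro v i i' hi x
      have := hi v .nil rfl
      simp only [nxtp] at this
      rw [this]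
    | succ k ih =>
      intro v i i' hi x
      rw [pow_succ', ← mulVec_mulVec, mat_mulVec, mat_mulVec]
      refine Finset.sum_congr rfl fun e _ => ?_
      rw [ih e.1 (m.nxt e.2 i) (m.nxt e.2 i') fun u p hp => hi u (p.cons e.2) (by simp [hp])]
  refine det_sync _ _ P S ?_ ?_ L ?_
  · refine Matrix.ext_of_mulVec_single fun j => funext fun v => ?_
    rw [← mulVec_mulVec, hS, hP, one_mulVec]
  · refine Matrix.ext_of_mulVec_single fun j => funext fun i => ?_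
    rw [← mulVec_mulVec, ← mulVec_mulVec, mat_mulVec, hP]
    simp only [hP]
    simp only [adjT, mulVec_single_one, Matrix.col_apply, Pi.single_apply, one_mul]
    exact Finset.sum_congr rfl fun e _ => by congr
  · refine Matrix.ext_of_mulVec_single fun j => funext fun i => ?_
    rw [← mulVec_mulVec, sub_mulVec, one_mulVec, ← mulVec_mulVec, Pi.sub_apply, hP, hS,
      key L i.1 i.2 (i0 i.1) (hL _ _ _)]
    simp

open LaurentPolynomial

/-- The cokernel of a model. -/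
abbrev Cok [Fintype V] : Type :=
  (m.ι → ℤ[T;T⁻¹]) ⧸ LinearMap.range ((1 - m.mat (T : ℤ → ℤ[T;T⁻¹]))ᵀ).mulVecLin

noncomputable def cls [Fintype V] (i : m.ι) : m.Cok := Submodule.Quotient.mk (Pi.single i 1)

lemma cls_rel [Fintype V] (i : m.ι) :
    m.cls i = ∑ e : In i.1, (T (m.wt e.2 i.2) : ℤ[T;T⁻¹]) • m.cls ⟨e.1, m.nxt e.2 i.2⟩ := by
  rw [← m.mat_smul T m.cls]
  have : ∑ i', m.mat (T : ℤ → ℤ[T;T⁻¹]) i i' • m.cls i' = Submodule.mkQ _
      (∑ i', m.mat (T : ℤ → ℤ[T;T⁻¹]) i i' • (Pi.single i' 1 : m.ι → ℤ[T;T⁻¹])) := by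
    rw [map_sum]
    exact Finset.sum_congr rfl fun _ _ => by rw [map_smul]; rfl
  rw [this, cls, Submodule.mkQ_apply, Submodule.Quotient.eq]
  refine ⟨Pi.single i 1, funext fun j => ?_⟩
  simp [Matrix.one_apply, Pi.single_apply, eq_comm]

lemma exists_univ [Fintype V] [NoSrc V] (h : Tors A τ) : ∃ u : ∀ v, A.X v → m.Cok, IsMeas A u ∧
    (∀ v i, u v (m.g v i) = m.cls ⟨v, i⟩) ∧
    (∀ n v x, u v (AHom.f (τ n) v x) = (T n : ℤ[T;T⁻¹]) • u v x) ∧
    ∀ (M : Type) [AddCommGroup M] [Module ℤ[T;T⁻¹] M] (φ : ∀ v, A.X v → M), IsMeas A φ →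
      (∀ n v x, φ v (AHom.f (τ n) v x) = (T n : ℤ[T;T⁻¹]) • φ v x) →
      ∃ β : m.Cok →ₗ[ℤ[T;T⁻¹]] M, ∀ v x, β (u v x) = φ v x := by
  obtain ⟨u, h1, h2, h3⟩ := m.exists_meas h
    (fun n => DistribSMul.toAddMonoidHom m.Cok (T n : ℤ[T;T⁻¹]))
    (fun a b x => by
      simp only [DistribSMul.toAddMonoidHom_apply]
      rw [T_add, mul_smul]) m.cls m.cls_rel
  have h4 : ∀ v i, u v (m.g v i) = m.cls ⟨v, i⟩ := fun v i => by
    simpa [h.t0] using h2 0 v i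
  refine ⟨u, h1, h4, h3, fun M _ _ φ hφ hφ' => ?_⟩
  let F := Fintype.linearCombination ℤ[T;T⁻¹] (fun i : m.ι => φ i.1 (m.g i.1 i.2))
  have hF : LinearMap.range ((1 - m.mat (T : ℤ → ℤ[T;T⁻¹]))ᵀ).mulVecLin ≤ LinearMap.ker F := by
    rw [LinearMap.range_le_ker_iff]
    refine (Pi.basisFun ℤ[T;T⁻¹] m.ι).ext fun i => ?_
    simp only [F, LinearMap.comp_apply, Pi.basisFun_apply, mulVecLin_apply, mulVec_single_one,
      Fintype.linearCombination_apply, LinearMap.zero_apply, Matrix.col_apply, transpose_apply,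
      Matrix.sub_apply, sub_smul, Finset.sum_sub_distrib, mat_smul]
    rw [sub_eq_zero]
    simp only [Matrix.one_apply, ite_smul, one_smul, zero_smul, Finset.sum_ite_eq, Finset.mem_univ,
      if_true]
    rw [hφ]
    refine Finset.sum_congr rfl fun e _ => ?_
    rw [m.act_g, hφ']
  refine ⟨Submodule.liftQ _ F hF, meas_eq_of_loc (m.S_loc h)
    (h1.map (Submodule.liftQ _ F hF).toAddMonoidHom) hφ ?_⟩
  rintro v _ ⟨⟨n, i⟩, rfl⟩
  rw [h2, hφ']
  simp [cls, F]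

end Model

universe v₁ u₁

variable {𝒜 : Type u₁} [Category.{v₁} 𝒜] [Fin' V] [NoSrc V] [Fin' W] [NoSrc W] [Fintype V]
  [Fintype W]

open LaurentPolynomial in
theorem det_dvd (S : Sys 𝒜 V) (S' : Sys 𝒜 W) {X : 𝒜} {τ : ℤ → (X ⟶ X)}
    (h : Tors (S.Γ.obj X) (fun n => S.Γ.map (τ n)))
    (h' : Tors (S'.Γ.obj X) (fun n => S'.Γ.map (τ n)))
    (m : Model (S.Γ.obj X) (fun n => S.Γ.map (τ n)))
    (m' : Model (S'.Γ.obj X) (fun n => S'.Γ.map (τ n))) :
    (1 - m.mat (T : ℤ → ℤ[T;T⁻¹])).det ∣ (1 - m'.mat (T : ℤ → ℤ[T;T⁻¹])).det := by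
  obtain ⟨u, h1, h2, h3, -⟩ := m.exists_univ h
  obtain ⟨u', h1', -, -, h4⟩ := m'.exists_univ h'
  obtain ⟨β, hβ⟩ := h4 _ (tr S S' u) (tr_meas S S' h1) (fun n w x => by
    rw [← tr_comp]
    simp only [h3]
    exact tr_map S S' u (DistribSMul.toAddMonoidHom m.Cok (T n : ℤ[T;T⁻¹])) w x)
  rw [← det_transpose, ← det_transpose (1 - m'.mat T)]
  refine det_dvd_of_surj _ _ β ?_
  have h5 : ∀ i, m.cls i ∈ LinearMap.range β := by
    intro i
    refine ⟨tr S' S u' i.1 (m.g _ i.2), ?_⟩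
    rw [← h2, ← tr_tr S S' h1]
    have : tr S S' u = fun v x => β.toAddMonoidHom (u' v x) :=
      funext fun v => funext fun x => (hβ v x).symm
    rw [this, tr_map]
    rfl
  intro c
  obtain ⟨c, rfl⟩ := Submodule.mkQ_surjective _ c
  change _ ∈ LinearMap.range β
  rw [pi_eq_sum_univ' c, map_sum]
  refine Submodule.sum_mem _ fun i _ => ?_
  rw [map_smul]
  exact Submodule.smul_mem _ _ (h5 i)

end Pool.Agent.H.MP_b5e7a1_al
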