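import Pool.Agent.H.MP_b5e7a1_al.D

namespace Pool.Agent.H.MP_b5e7a1_al

open CategoryTheory Quiver Matrix

variable {V W : Type} [Quiver.{0} V] [Quiver.{0} W]

/-- Existence of a Perron eigenvector. -/
lemma perron [Fin' W] [Fintype W] [Nonempty W] (hsc : ∀ u v : W, Nonempty (Path u v)) :
    ∃ (ρ : ℝ) (x : W → ℝ), (∀ w, 0 < x w) ∧ ∀ w, ∑ e : In w, x e.1 = ρ * x w := by
  classical
  let L : (W → ℝ) →ₗ[ℝ] (W → ℝ) :=
    { toFun := fun x w => ∑ e : In w, x e.1
      map_add' := fun x y => funext fun w => by simp [Finset.sum_add_distrib]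
      map_smul' := fun c x => funext fun w => by simp [Finset.mul_sum] }
  have hL : ∀ x w, L x w = ∑ e : In w, x e.1 := fun _ _ => rfl
  let P : Module.End ℝ (W → ℝ) := 1 + L
  have hP : ∀ x w, P x w = x w + ∑ e : In w, x e.1 := fun _ _ => rfl
  have hP0 : ∀ (n : ℕ) (x : W → ℝ), (∀ w, 0 ≤ x w) → ∀ w, x w ≤ (P ^ n) x w := by
    intro n
    induction n with
    | zero => intro x _ w; simp
    | succ n ih =>
      intro x hx w
      rw [pow_succ', Module.End.mul_apply, hP]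
      have := Finset.sum_nonneg (s := Finset.univ) fun (e : In w) _ => (hx e.1).trans (ih x hx e.1)
      linarith [ih x hx w]
  have hP1 : ∀ (x : W → ℝ), (∀ w, 0 ≤ x w) → ∀ u, 0 < x u → ∀ w (p : Path u w),
      0 < (P ^ p.length) x w := by
    intro x hx u hu w p
    induction p with
    | nil => simpa using hu
    | cons p e ih =>
      rw [Path.length_cons, pow_succ', Module.End.mul_apply, hP]
      have h1 := fun w => (hx w).trans (hP0 p.length x hx w)
      have := Finset.single_le_sum (f := fun e : In _ => (P ^ p.length) x e.1)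
        (fun e _ => h1 e.1) (Finset.mem_univ ⟨_, e⟩)
      exact add_pos_of_nonneg_of_pos (h1 _) (ih.trans_le this)
  have hP2 : ∀ (x : W → ℝ), (∀ w, 0 ≤ x w) → x ≠ 0 → ∃ n : ℕ, ∀ w, 0 < (P ^ n) x w := by
    intro x hx h0
    obtain ⟨u, hu⟩ := Function.ne_iff.1 h0
    have hu' : 0 < x u := lt_of_le_of_ne (hx u) (Ne.symm hu)
    let l : W → ℕ := fun w => (hsc u w).some.length
    refine ⟨Finset.univ.sup l, fun w => ?_⟩
    obtain ⟨k, hk⟩ := Nat.exists_eq_add_of_le' (Finset.le_sup (f := l) (Finset.mem_univ w))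
    rw [hk, pow_add, Module.End.mul_apply]
    exact (hP1 x hx u hu' w _).trans_le (hP0 k _ (fun w => (hx w).trans (hP0 _ x hx w)) w)
  have hcomm : ∀ n : ℕ, ∀ x, L ((P ^ n) x) = (P ^ n) (L x) := by
    intro n x
    have : Commute L (P ^ n) := ((Commute.one_right L).add_right (Commute.refl L)).pow_right n
    exact LinearMap.congr_fun this.eq x
  let C : ℝ := ∑ w : W, (Fintype.card (In w) : ℝ)
  let K : Set ((W → ℝ) × ℝ) :=
    (stdSimplex ℝ W ×ˢ Set.Icc 0 C) ∩ {a | ∀ w, a.2 * a.1 w ≤ ∑ e : In w, a.1 e.1}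
  have hK : IsCompact K := by
    refine ((isCompact_stdSimplex ℝ W).prod isCompact_Icc).inter_right ?_
    simp only [Set.setOf_forall]
    exact isClosed_iInter fun w => isClosed_le (by fun_prop) (by fun_prop)
  have hbd : ∀ x ∈ stdSimplex ℝ W, ∀ r : ℝ, (∀ w, r * x w ≤ ∑ e : In w, x e.1) → r ≤ C := by
    intro x hx r h
    have h1 := Finset.sum_le_sum fun w (_ : w ∈ Finset.univ) => h w
    rw [← Finset.mul_sum, hx.2, mul_one] at h1
    refine h1.trans (Finset.sum_le_sum fun w _ => ?_)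
    have := Finset.sum_le_card_nsmul Finset.univ (fun e : In w => x e.1) 1
      fun e _ => (mem_Icc_of_mem_stdSimplex hx e.1).2
    simpa using this
  obtain ⟨w0⟩ := ‹Nonempty W›
  have h0 := single_mem_stdSimplex ℝ w0
  have h00 : ∀ w, (0 : ℝ) * (Pi.single w0 1 : W → ℝ) w ≤ ∑ e : In w, (Pi.single w0 1 : W → ℝ) e.1 :=
    fun w => by
      rw [zero_mul]
      exact Finset.sum_nonneg fun e _ => h0.1 _
  obtain ⟨⟨x, ρ⟩, ⟨⟨hx, hρ⟩, hle⟩, hmax⟩ := hK.exists_isMaxOn
    ⟨(Pi.single w0 1, 0), ⟨h0, le_rfl, hbd _ h0 0 h00⟩, h00⟩ continuous_snd.continuousOn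
  simp only [Set.mem_setOf_eq] at hx hρ hle
  have hx0 : x ≠ 0 := by
    rintro rfl
    simpa using hx.2
  have heig : L x = ρ • x := by
    by_contra hne
    obtain ⟨n, hn⟩ := hP2 (L x - ρ • x) (fun w => by simpa [hL] using hle w) (sub_ne_zero.2 hne)
    let y := (P ^ n) x
    have hy : ∀ w, 0 ≤ y w := fun w => (hx.1 w).trans (hP0 n x hx.1 w)
    have hs : 0 < ∑ w, y w := by
      have := Finset.sum_le_sum fun w (_ : w ∈ Finset.univ) => hP0 n x hx.1 w
      rw [hx.2] at this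
      exact one_pos.trans_le this
    have hd : ∀ w, ρ * y w < ∑ e : In w, y e.1 := fun w => by
      have := hn w
      rw [map_sub, map_smul, ← hcomm] at this
      simpa [hL] using this
    have hev : ∀ᶠ r in nhds ρ, ∀ w, r * y w < ∑ e : In w, y e.1 :=
      Filter.eventually_all.2 fun w =>
        (continuous_id.mul continuous_const).continuousAt.eventually_lt continuousAt_const (hd w)
    obtain ⟨r, hr, hr'⟩ := hev.exists_gt
    let z : W → ℝ := fun w => y w / ∑ w, y w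
    have hz : z ∈ stdSimplex ℝ W :=
      ⟨fun w => div_nonneg (hy w) hs.le, by simp only [z]; rw [← Finset.sum_div, div_self hs.ne']⟩
    have hz' : ∀ w, r * z w ≤ ∑ e : In w, z e.1 := fun w => by
      simp only [z]
      rw [← Finset.sum_div, ← mul_div_assoc]
      exact div_le_div_of_nonneg_right (hr' w).le hs.le
    have := hmax (show (z, r) ∈ K from ⟨⟨hz, hρ.1.trans hr.le, hbd z hz r hz'⟩, hz'⟩)
    exact absurd this (not_le.2 hr)
  obtain ⟨n, hn⟩ := hP2 x hx.1 hx0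
  refine ⟨ρ, (P ^ n) x, hn, fun w => ?_⟩
  rw [← hL, hcomm, heig, map_smul]
  rfl

lemma perron' [Fin' W] [NoSrc W] [Fintype W] [Nonempty W] (hsc : ∀ u v : W, Nonempty (Path u v))
    (hin : ¬ ∀ w : W, Subsingleton (In w)) :
    ∃ (t : ℝ) (x : W → ℝ), 0 < t ∧ t < 1 ∧ (∀ w, 0 < x w) ∧ ∀ w, x w = ∑ e : In w, t * x e.1 := by
  obtain ⟨ρ, x, hx, h⟩ := perron hsc
  have hρ : 1 < ρ := by
    by_contra hρ
    apply hin
    obtain ⟨v, hv⟩ := Finite.exists_min x
    have key : ∀ w, x w = x v → Subsingleton (In w) ∧ ∀ e : In w, x e.1 = x v := by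
      intro w hw
      have h1 : ∑ e : In w, x e.1 ≤ x v := by
        rw [h, hw]
        nlinarith [hx v]
      have h2 : ∀ e : In w, x e.1 = x v := fun e => le_antisymm
        ((Finset.single_le_sum (f := fun e : In w => x e.1) (fun e _ => (hx _).le)
          (Finset.mem_univ e)).trans h1) (hv _)
      refine ⟨?_, h2⟩
      simp only [h2, Finset.sum_const, Finset.card_univ, nsmul_eq_mul] at h1
      rw [← Fintype.card_le_one_iff_subsingleton]
      exact_mod_cast (mul_le_iff_le_one_left (hx v)).1 h1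
    have key2 : ∀ (u w : W) (p : Quiver.Path u w), x w = x v → x u = x v := by
      intro u w p
      induction p with
      | nil => exact id
      | cons p e ih => exact fun hw => ih ((key _ hw).2 ⟨_, e⟩)
    exact fun w => (key w (key2 w v (hsc w v).some rfl)).1
  refine ⟨ρ⁻¹, x, by positivity, inv_lt_one_of_one_lt₀ hρ, hx, fun w => ?_⟩
  rw [← Finset.mul_sum, h]
  field_simp

universe v₁ u₁

variable {𝒜 : Type u₁} [Category.{v₁} 𝒜]

lemma exists_tors_obj [Fin' W] [NoSrc W] (Γ : 𝒜 ⥤ Alg W) [Γ.Full] [Γ.Faithful] [Γ.EssSurj] :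
    ∃ (X : 𝒜) (τ : ℤ → (X ⟶ X)) (h : ∀ v, (Γ.obj X).X v),
      Tors (Γ.obj X) (fun n => Γ.map (τ n)) ∧
      ∀ {u v : W} (e : u ⟶ v), (Γ.obj X).act e (h v) = AHom.f (Γ.map (τ 1)) u (h u) := by
  obtain ⟨T, τ, h, ht, hh⟩ := exists_tors W
  let i := Γ.objObjPreimageIso T
  have h1 : ∀ v y, AHom.f i.hom v (AHom.f i.inv v y) = y := fun v y => by
    rw [← comp_f, i.inv_hom_id, id_f]
  have h2 : ∀ v y, AHom.f i.inv v (AHom.f i.hom v y) = y := fun v y => by
    rw [← comp_f, i.hom_inv_id, id_f]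
  refine ⟨_, fun n => Γ.preimage (i.hom ≫ τ n ≫ i.inv), fun v => AHom.f i.inv v (h v), ?_, ?_⟩
  · simp only [Functor.map_preimage]
    refine ⟨by simp [ht.zero], fun a b => by simp [ht.add], fun v => ⟨AHom.f i.inv v (h v)⟩,
      fun v g g' => ?_, fun v g n hg => ?_⟩
    · obtain ⟨L, hL⟩ := ht.loc v (AHom.f i.hom v g) (AHom.f i.hom v g')
      refine ⟨L, fun u p hp => ?_⟩
      obtain ⟨n, hn⟩ := hL u p hp
      refine ⟨n, ?_⟩
      rw [comp_f, comp_f, hom_pa i.hom, ← hn, ← hom_pa, h2]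
    · refine ht.free v (AHom.f i.hom v g) n ?_
      rw [comp_f, comp_f] at hg
      rw [← h1 v (AHom.f (τ n) v _), hg]
  · intro u v e
    simp only [Functor.map_preimage, comp_f, h1]
    rw [← AHom.comm, hh]

/-- The tautological model. -/
def tautModel {A : Alg W} {τ : ℤ → (A ⟶ A)} (h : ∀ v, A.X v)
    (hh : ∀ {u v : W} (e : u ⟶ v), A.act e (h v) = AHom.f (τ 1) u (h u)) : Model A τ :=
  ⟨fun _ => Unit, fun _ => inferInstance, fun _ => inferInstance, fun v _ => h v, fun _ _ => (),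
    fun _ _ => 1, fun e _ => hh e, fun _ _ _ _ _ => rfl⟩

lemma exists_pos_meas [Fin' W] [NoSrc W] {A : Alg W} {τ : ℤ → (A ⟶ A)} (ht : Tors A τ)
    (h : ∀ v, A.X v) (hh : ∀ {u v : W} (e : u ⟶ v), A.act e (h v) = AHom.f (τ 1) u (h u))
    (t : ℝ) (x : W → ℝ) (h0 : 0 < t) (hx : ∀ w, 0 < x w) (he : ∀ w, x w = ∑ e : In w, t * x e.1) :
    ∃ μ : ∀ v, A.X v → ℝ, IsMeas A μ ∧ (∀ v y, 0 < μ v y) ∧
      ∀ n v y, μ v (AHom.f (τ n) v y) = t ^ n * μ v y := by
  obtain ⟨μ, h1, h2, h3⟩ := (tautModel h hh).exists_meas ht (fun n => AddMonoidHom.mulLeft (t ^ n))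
    (fun a b y => by simp [zpow_add₀ h0.ne', mul_assoc]) (fun i => x i.1)
    (fun i => by simpa [tautModel] using he i.1)
  refine ⟨μ, h1, meas_pos_of_loc ((tautModel h hh).S_loc ht) h1 ?_, h3⟩
  rintro v _ ⟨⟨n, i⟩, rfl⟩
  rw [h2]
  exact mul_pos (zpow_pos h0 n) (hx v)

lemma Model.eig [Fin' V] {A : Alg V} {τ : ℤ → (A ⟶ A)} (m : Model A τ)
    {μ : ∀ v, A.X v → ℝ} (h1 : IsMeas A μ) {t : ℝ}
    (h3 : ∀ n v y, μ v (AHom.f (τ n) v y) = t ^ n * μ v y) (i : m.ι) :
    μ _ (m.g _ i.2) = ∑ e : In i.1, t ^ (m.wt e.2 i.2) * μ _ (m.g _ (m.nxt e.2 i.2)) := by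
  rw [h1]
  refine Finset.sum_congr rfl fun e _ => ?_
  rw [m.act_g, h3]

open LaurentPolynomial in
theorem main_sys [Fin' V] [NoSrc V] [Fin' W] [NoSrc W] [Fintype V] [Fintype W] [DecidableEq V]
    [DecidableEq W] [Nonempty W] (S : Sys 𝒜 V) (S' : Sys 𝒜 W)
    (hsc : ∀ u v : W, Nonempty (Path u v)) (hin : ¬ ∀ w : W, Subsingleton (In w)) :
    (1 - Model.adjT V).det = (1 - Model.adjT W).det := by
  obtain ⟨t, x, h0, h1, hx, he⟩ := perron' hsc hin
  obtain ⟨X, τ, h, ht', hh⟩ := exists_tors_obj S'.Γ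
  have ht := tors_transfer S S' ht'
  obtain ⟨m⟩ := exists_model ht
  let m' := tautModel (τ := fun n => S'.Γ.map (τ n)) h hh
  obtain ⟨μ', a1, a2, a3⟩ := exists_pos_meas ht' h hh t x h0 hx he
  have b1 := tr_meas S' S a1
  have b2 := tr_pos S' S a1 a2
  have b3 : ∀ n v y, tr S' S μ' v (AHom.f (S.Γ.map (τ n)) v y) = t ^ n * tr S' S μ' v y := by
    intro n v y
    rw [← tr_comp]
    simp only [a3]
    exact tr_map S' S μ' (AddMonoidHom.mulLeft (t ^ n)) v y
  have ht2 : 0 < t ^ 2 := by positivity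
  have := evL_eq _ _ (det_dvd S S' ht ht' m m') (det_dvd S' S ht' ht m' m) (t ^ 2) ht2 ?_ ?_
  · rw [Model.mat_map, Model.mat_map] at this
    simp only [evL_T, _root_.one_zpow] at this
    rw [← m.det_one ht, ← m'.det_one ht', this]
  · rw [Model.mat_map]
    simp only [evL_T]
    refine det_nonneg_of_le _ (m.mat_nonneg _ fun n => (zpow_pos ht2 n).le)
      (fun i => tr S' S μ' _ (m.g _ i.2) ^ 2) (fun i => pow_pos (b2 _ _) 2) fun i => ?_
    rw [m.mat_mulVec, m.eig b1 b3 i]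
    refine le_trans (le_of_eq (Finset.sum_congr rfl fun e _ => ?_))
      (Finset.sum_sq_le_sq_sum_of_nonneg fun e _ => (mul_pos (zpow_pos h0 _) (b2 _ _)).le)
    rw [mul_pow, sq t, mul_zpow, sq (t ^ _)]
  · rw [Model.mat_map]
    simp only [evL_T]
    have h2 : m'.mat (fun n => (t ^ 2) ^ n) = t • m'.mat (fun n => t ^ n) := by
      ext i j
      rw [Matrix.smul_apply, Model.mat, Model.mat, smul_eq_mul, Finset.mul_sum]
      refine Finset.sum_congr rfl fun e _ => ?_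
      simp [m', tautModel, sq]
    rw [h2]
    refine det_pos_of_le _ (m'.mat_nonneg _ fun n => (zpow_pos h0 n).le)
      (fun i => μ' _ (m'.g _ i.2)) (fun i => a2 _ _) (fun i => ?_) t h0.le h1
    rw [m'.mat_mulVec, m'.eig a1 a3 i]

theorem degenerate [Fin' W] [NoSrc W] [Fintype W] [Nonempty W] [Subsingleton V]
    (hV : ∀ v : V, IsEmpty (In v)) (Γ : 𝒜 ⥤ Alg V) [Γ.Full] [Γ.Faithful] (S' : Sys 𝒜 W)
    (hsc : ∀ u v : W, Nonempty (Path u v)) (hin : ¬ ∀ w : W, Subsingleton (In w)) : False := by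
  obtain ⟨t, x, h0, h1, hx, he⟩ := perron' hsc hin
  obtain ⟨X, τ, h, ht', hh⟩ := exists_tors_obj S'.Γ
  obtain ⟨μ, a1, a2, -⟩ := exists_pos_meas ht' h hh t x h0 hx he
  have hne : ∀ v, Nonempty ((Γ.obj X).X v) := by
    intro v
    by_contra hv
    have h2 : τ 1 = 𝟙 X := Γ.map_injective (hom_ext fun w y => by
      obtain rfl := Subsingleton.elim v w
      exact (hv ⟨y⟩).elim)
    obtain ⟨w⟩ := ‹Nonempty W›
    have := ht'.free w (h w) 1 (by simp [h2])
    simp at this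
  obtain ⟨γ, hγ⟩ := Γ.map_surjective (X := X) (Y := X)
    ⟨fun v _ => (hne v).some, fun e _ => ((hV _).false ⟨_, e⟩).elim⟩
  have h3 : ∀ w (y y' : (S'.Γ.obj X).X w),
      AHom.f (S'.Γ.map γ) w y = AHom.f (S'.Γ.map γ) w y' := by
    intro w y y'
    obtain ⟨a, rfl⟩ := S'.ev_surj y
    obtain ⟨a', rfl⟩ := S'.ev_surj y'
    rw [← S'.ev_comp, ← S'.ev_comp]
    congr 1
    refine Γ.map_injective (hom_ext fun v z => ?_)
    simp [hγ]
  let y : W → ℝ := fun w => μ w (AHom.f (S'.Γ.map γ) w (h w))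
  have hy : ∀ w, y w = ∑ e : In w, y e.1 := fun w => by
    simp only [y]
    rw [a1]
    refine Finset.sum_congr rfl fun e _ => ?_
    rw [← AHom.comm, h3]
  obtain ⟨w, hw⟩ := Finite.exists_min fun w => y w / x w
  have hc : 0 < y w / x w := div_pos (a2 _ _) (hx w)
  have h4 : ∑ e : In w, y w / x w * x e.1 ≤ ∑ e : In w, y e.1 :=
    Finset.sum_le_sum fun e _ => (le_div_iff₀ (hx _)).1 (hw e.1)
  have h5 := he w
  rw [← Finset.mul_sum] at h4 h5
  rw [← hy] at h4
  have h6 : 0 < ∑ e : In w, x e.1 := Finset.sum_pos (fun e _ => hx _) Finset.univ_nonempty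
  have h7 : y w = y w / x w * x w := (div_mul_cancel₀ _ (hx w).ne').symm
  have h8 : x w < ∑ e : In w, x e.1 := by nlinarith
  nlinarith

end Pool.Agent.H.MP_b5e7a1_al
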